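import Mathlib

/-!
# Definitions and module statements for the capacity criterion of uniform harmonic approximation
(MP_7284a1_an)
-/

open MeasureTheory Set Filter Topology
open scoped ENNReal NNReal ContDiff Laplacian

namespace Pool.Agent.R402.HA

/-- Euclidean `n`-space. -/
abbrev V (n : ℕ) := EuclideanSpace ℝ (Fin n)

/-- `h` is harmonic near `K`: harmonic on some open set containing `K`. -/
def HarmonicNear {n : ℕ} (K : Set (V n)) (h : V n → ℝ) : Prop :=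
  ∃ U : Set (V n), IsOpen U ∧ K ⊆ U ∧ InnerProductSpace.HarmonicOnNhd h U

/-- Condition (1): `f` is a uniform limit on `K` of functions harmonic near `K`. -/
def Cond1 {n : ℕ} (K : Set (V n)) (f : V n → ℝ) : Prop :=
  ∃ F : ℕ → V n → ℝ, (∀ j, HarmonicNear K (F j)) ∧ TendstoUniformlyOn F f atTop K

/-- The measure `μ` is supported on `E` and its Newtonian potential (kernel `r ^ (2 - n)`, value
`∞` at `r = 0`) is at most one everywhere. -/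
def PotLeOne {n : ℕ} (E : Set (V n)) (μ : Measure (V n)) : Prop :=
  μ Eᶜ = 0 ∧ ∀ x, ∫⁻ y, (‖x - y‖ₑ ^ (n - 2))⁻¹ ∂μ ≤ 1

/-- Newtonian capacity of a compact set. -/
noncomputable def capC {n : ℕ} (E : Set (V n)) : ℝ≥0∞ :=
  ⨆ (μ : Measure (V n)) (_ : PotLeOne E μ), μ E

/-- Inner Newtonian capacity of an arbitrary set. -/
noncomputable def cap {n : ℕ} (A : Set (V n)) : ℝ≥0∞ :=
  ⨆ (E : Set (V n)) (_ : IsCompact E) (_ : E ⊆ A), capC E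

/-- The closed ball with centre `c` and radius `ρ` is a closed ball of least radius
containing `S`. -/
def IsLeastBall {n : ℕ} (S : Set (V n)) (c : V n) (ρ : ℝ) : Prop :=
  S ⊆ Metric.closedBall c ρ ∧ ∀ c' ρ', S ⊆ Metric.closedBall c' ρ' → ρ ≤ ρ'

/-- The norm `‖φ‖_* = ‖φ‖_∞ + d(φ) ‖∇φ‖_∞`, `d(φ)` being the diameter of the support. -/
noncomputable def starNorm {n : ℕ} (φ : V n → ℝ) : ℝ :=
  (⨆ x, |φ x|) + Metric.diam (tsupport φ) * ⨆ x, ‖fderiv ℝ φ x‖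

/-- The larger norm `∑_{i ≤ m} d(φ)^i ‖D^i φ‖_∞`. -/
noncomputable def starNormK {n : ℕ} (m : ℕ) (φ : V n → ℝ) : ℝ :=
  ∑ i ∈ Finset.range (m + 1), Metric.diam (tsupport φ) ^ i * ⨆ x, ‖iteratedFDeriv ℝ i φ x‖

/-- Condition (2) with a functional `N` in the place of `‖·‖_*`. -/
def Cond2N {n : ℕ} (N : (V n → ℝ) → ℝ) (K : Set (V n)) (f : V n → ℝ) : Prop :=
  ∃ η : ℝ → ℝ, MonotoneOn η (Ioi 0) ∧ (∀ t ∈ Ioi (0 : ℝ), 0 ≤ η t) ∧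
    Tendsto η (𝓝[>] 0) (𝓝 0) ∧
    ∀ φ : V n → ℝ, ContDiff ℝ ∞ φ → HasCompactSupport φ → φ ≠ 0 →
      ∀ c ρ, IsLeastBall (tsupport φ) c ρ →
        ENNReal.ofReal |∫ x, f x * Δ φ x| ≤
          ENNReal.ofReal (η (Metric.diam (tsupport φ)) * N φ) * cap (Metric.closedBall c ρ \ K)

/-- Condition (2) of the problem. -/
def Cond2 {n : ℕ} (K : Set (V n)) (f : V n → ℝ) : Prop := Cond2N starNorm K f

/-! ### Module statements -/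

/-- HA-HB: Hahn-Banach and the Riesz representation. -/
def HBStm : Prop := ∀ (n : ℕ) (K : Set (V n)), IsCompact K → ∀ f : V n → ℝ, Continuous f →
  ¬ Cond1 K f → ∃ μ ν : Measure (V n), IsFiniteMeasure μ ∧ IsFiniteMeasure ν ∧ μ Kᶜ = 0 ∧
    ν Kᶜ = 0 ∧ (∀ h : V n → ℝ, HarmonicNear K h → ∫ x, h x ∂μ = ∫ x, h x ∂ν) ∧
    ∫ x, f x ∂μ ≠ ∫ x, f x ∂ν

/-- HA-KER: truncated Newtonian kernels. -/
def KerStm : Prop := ∀ n, 3 ≤ n → ∀ ε : ℝ, 0 < ε → ∃ G : V n → ℝ, ContDiff ℝ ∞ G ∧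
  (∀ x, 0 < G x) ∧ (∀ x, x ≠ 0 → G x ≤ (‖x‖ ^ (n - 2))⁻¹) ∧
  (∀ x, ε ≤ ‖x‖ → G x = (‖x‖ ^ (n - 2))⁻¹) ∧
  (∀ x y, ‖x‖ ≤ ‖y‖ → G y ≤ G x) ∧ (∀ x, Δ G x ≤ 0) ∧
  (∀ x, ε < ‖x‖ → Δ G x = 0) ∧ ∫ x, Δ G x < 0

/-- HA-POT: potentials of measures with compact support. -/
def PotStm : Prop := ∀ (n : ℕ) (G : V n → ℝ), ContDiff ℝ ∞ G → ∀ K : Set (V n), IsCompact K →
  ∀ μ : Measure (V n), IsFiniteMeasure μ → μ Kᶜ = 0 →
    ContDiff ℝ ∞ (fun y => ∫ x, G (y - x) ∂μ) ∧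
    ∀ y, Δ (fun y => ∫ x, G (y - x) ∂μ) y = ∫ x, Δ G (y - x) ∂μ

/-- HA-BALL: existence of a least ball. -/
def BallStm : Prop := ∀ (n : ℕ) (S : Set (V n)), IsCompact S → S.Nonempty →
  ∃ c ρ, IsLeastBall S c ρ

/-- HA-NORM: derivative bounds for localized mollifications. -/
def NormStm : Prop := ∀ (n : ℕ) (ψ ρ : V n → ℝ), ContDiff ℝ ∞ ψ → ContDiff ℝ ∞ ρ →
  tsupport ψ ⊆ Metric.closedBall 0 1 → tsupport ρ ⊆ Metric.closedBall 0 1 → ∀ i : ℕ,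
  ∃ A : ℝ, 0 < A ∧ ∀ r : ℝ, 0 < r → ∀ (x₀ : V n) (u : V n → ℝ), Continuous u → ∀ x,
    ‖iteratedFDeriv ℝ i
      (fun x => ψ (r⁻¹ • (x - x₀)) * ∫ y, u y * ρ (r⁻¹ • (x - y))) x‖ ≤
      A * (r⁻¹) ^ i * ∫ y in Metric.closedBall x₀ (2 * r), |u y|

/-- HA-CAP: choice of a nearly optimal measure. -/
def CapStm : Prop := ∀ n, 3 ≤ n → ∀ (c : V n) (ρ : ℝ) (A : Set (V n)),
  A ⊆ Metric.closedBall c ρ → cap A < ⊤ ∧
    ∃ (E : Set (V n)) (ν : Measure (V n)), IsCompact E ∧ E ⊆ A ∧ IsFiniteMeasure ν ∧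
      PotLeOne E ν ∧ cap A ≤ 2 * ν univ

/-- HA-PU: partition of unity with bounded overlap. -/
def PUStm : Prop := ∀ n, 0 < n → ∃ ψ : V n → ℝ, ContDiff ℝ ∞ ψ ∧
  tsupport ψ ⊆ Metric.closedBall 0 1 ∧ ∃ Q : ℝ, 0 < Q ∧ ∀ r R : ℝ, 0 < r → 0 < R →
    ∃ J : Finset (V n), (∀ x ∈ Metric.closedBall (0 : V n) R,
      ∑ j ∈ J, ψ (r⁻¹ • (x - j)) = 1) ∧
      ∀ x : V n, ((J.filter (fun j => ‖x - j‖ ≤ 13 * r)).card : ℝ) ≤ Q

/-- HA-KATO: smooth version of the absolute value. -/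
def KatoStm : Prop := ∀ (n : ℕ) (u : V n → ℝ), ContDiff ℝ ∞ u → HasCompactSupport u →
  ∀ δ : ℝ, 0 < δ → ∃ g : V n → ℝ, ContDiff ℝ ∞ g ∧ HasCompactSupport g ∧ (∀ x, 0 ≤ g x) ∧
    (∀ x, |u x| ≤ g x + δ) ∧ (∀ x, u x = 0 → g x = 0) ∧ (∀ x, 0 ≤ Δ g x + |Δ u x|) ∧
    ∫ x, (Δ g x + |Δ u x|) = ∫ x, |Δ u x|

/-- HA-CP: the capacity Poincaré inequality. -/
def CPStm : Prop := ∀ n, 3 ≤ n → ∃ A : ℝ, 0 < A ∧ ∀ r : ℝ, 0 < r →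
  ∀ (x₀ : V n) (g L : V n → ℝ), ContDiff ℝ ∞ g → HasCompactSupport g → (∀ x, 0 ≤ g x) →
    Continuous L → (∀ x, Δ g x ≤ L x) → (∀ x, 0 ≤ L x) →
    ∀ (E : Set (V n)) (ν : Measure (V n)), IsCompact E → E ⊆ Metric.closedBall x₀ (3 * r) →
      IsFiniteMeasure ν → PotLeOne E ν → ∀ τ : ℝ, 0 < τ → (∀ x ∈ Metric.cthickening τ E, g x = 0) →
      (ν univ).toReal * ∫ x in Metric.closedBall x₀ (2 * r), g x ≤
        A * r ^ n * ∫ x in Metric.closedBall x₀ (13 * r), L x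

end Pool.Agent.R402.HA
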