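import Pool.Agent.R402.HA.Kato

/-!
# Assembly, part 1: Fubini, total mass, vanishing of the potential
-/

open MeasureTheory Set Filter Topology
open scoped ENNReal NNReal ContDiff Laplacian

namespace Pool.Agent.R402.HA

variable {n : ℕ}

theorem fderiv_const_sub_comp {W : Type*} [NormedAddCommGroup W] [NormedSpace ℝ W] (G : V n → W)
    (hG : Differentiable ℝ G) (y z : V n) :
    fderiv ℝ (fun x => G (y - x)) z = - fderiv ℝ G (y - z) := by
  have h1 : HasFDerivAt (fun x : V n => y - x) (-ContinuousLinearMap.id ℝ (V n)) z := by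
    simpa using (hasFDerivAt_id z).const_sub y
  have h2 := (hG (y - z)).hasFDerivAt.comp z h1
  have h3 : fderiv ℝ (fun x => G (y - x)) z = _ := h2.fderiv
  rw [h3]
  ext v
  simp

theorem lap_const_sub (G : V n → ℝ) (hG : ContDiff ℝ 2 G) (y z : V n) :
    Δ (fun x => G (y - x)) z = Δ G (y - z) := by
  rw [lap_eq, lap_eq]
  have hF' : ContDiff ℝ 1 (fderiv ℝ G) := hG.fderiv_right (m := 1) (by norm_num)
  have h1 : fderiv ℝ (fun x => G (y - x)) = fun z => - fderiv ℝ G (y - z) :=
    funext fun z => fderiv_const_sub_comp G (hG.differentiable (by norm_num)) y z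
  rw [h1]
  have h2 : fderiv ℝ (fun z => - fderiv ℝ G (y - z)) z = fderiv ℝ (fderiv ℝ G) (y - z) := by
    have h3 := fderiv_const_sub_comp (fun z => - fderiv ℝ G z) (hF'.differentiable (by norm_num)).neg y z
    rw [h3]
    have h4 : fderiv ℝ (fun z => - fderiv ℝ G z) (y - z) = - fderiv ℝ (fderiv ℝ G) (y - z) :=
      fderiv_fun_neg
    rw [h4, neg_neg]
  rw [h2]

theorem lap_sum {ι : Type*} (J : Finset ι) (φ : ι → V n → ℝ) (hφ : ∀ j, ContDiff ℝ 2 (φ j)) (x : V n) :
    Δ (fun x => ∑ j ∈ J, φ j x) x = ∑ j ∈ J, Δ (φ j) x := by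
  classical
  induction J using Finset.induction_on with
  | empty =>
    simp only [Finset.sum_empty]
    simp
  | insert a s ha ih =>
    rw [Finset.sum_insert ha, ← ih]
    have h1 : (fun x => ∑ j ∈ insert a s, φ j x) = φ a + fun x => ∑ j ∈ s, φ j x := by
      funext x; rw [Finset.sum_insert ha]; rfl
    rw [h1, ContDiffAt.laplacian_add]
    · exact (hφ a).contDiffAt
    · exact (ContDiff.sum fun j _ => hφ j).contDiffAt

theorem pot_zero {G : V n → ℝ} (hG : ContDiff ℝ ((⊤ : ℕ∞) : WithTop ℕ∞) G) {ε : ℝ}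
    (hGlap0 : ∀ x, ε < ‖x‖ → Δ G x = 0) {K : Set (V n)} {μ ν : Measure (V n)}
    (hann : ∀ h : V n → ℝ, HarmonicNear K h → ∫ x, h x ∂μ = ∫ x, h x ∂ν)
    (y : V n) (hy : ∀ x ∈ K, ε < ‖y - x‖) :
    ∫ x, G (y - x) ∂μ = ∫ x, G (y - x) ∂ν := by
  apply hann
  refine ⟨{x | ε < ‖y - x‖}, isOpen_lt continuous_const (by fun_prop), fun x hx => hy x hx, ?_⟩
  intro x hx
  refine ⟨?_, ?_⟩
  · exact ((hG.comp (contDiff_const.sub contDiff_id)).of_le two_le_inf).contDiffAt
  · have : {x | ε < ‖y - x‖} ∈ 𝓝 x := (isOpen_lt continuous_const (by fun_prop)).mem_nhds hx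
    filter_upwards [this] with z hz
    rw [lap_const_sub G (hG.of_le two_le_inf)]
    exact hGlap0 _ hz

/-- integrability on the product -/
theorem prod_integrable {k F : V n → ℝ} (hk : Continuous k) (hkc : HasCompactSupport k)
    (hF : Continuous F) {K : Set (V n)} (hK : IsCompact K) (μ : Measure (V n)) [IsFiniteMeasure μ]
    (hμ : μ Kᶜ = 0) :
    Integrable (Function.uncurry fun (y x : V n) => F y * k (y - x)) (volume.prod μ) := by
  obtain ⟨R₀, hR₀⟩ := hK.isBounded.subset_closedBall (0 : V n)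
  obtain ⟨R₁, hR₁⟩ := hkc.isCompact.isBounded.subset_closedBall (0 : V n)
  set R := |R₀| + |R₁| with hR
  obtain ⟨C₁, hC₁⟩ := (isCompact_closedBall (0 : V n) R).exists_bound_of_continuousOn hF.continuousOn
  obtain ⟨C₂, hC₂⟩ := hkc.exists_bound_of_continuous hk
  have hC1 : 0 ≤ C₁ := (norm_nonneg _).trans (hC₁ 0 (Metric.mem_closedBall_self (by positivity)))
  have hC2 : 0 ≤ C₂ := (norm_nonneg _).trans (hC₂ 0)
  have hb : Integrable (fun p : V n × V n => ((Metric.closedBall (0 : V n) R).indicator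
      (fun _ => C₁ * C₂) p.1) * (1 : ℝ)) (volume.prod μ) := by
    refine Integrable.mul_prod (f := (Metric.closedBall (0 : V n) R).indicator (fun _ => C₁ * C₂))
      (g := fun _ => (1 : ℝ)) ?_ (integrable_const _)
    exact IntegrableOn.integrable_indicator
      (continuousOn_const.integrableOn_compact (isCompact_closedBall _ _))
      Metric.isClosed_closedBall.measurableSet
  refine hb.mono' ?_ ?_
  · apply Continuous.aestronglyMeasurable
    exact (hF.comp continuous_fst).mul (hk.comp (continuous_fst.sub continuous_snd))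
  · have h1 : ∀ᵐ x ∂μ, x ∈ K := by rw [ae_iff]; exact hμ
    have h2 : ∀ᵐ p ∂((volume : Measure (V n)).prod μ), p.2 ∈ K :=
      Measure.quasiMeasurePreserving_snd.ae h1
    filter_upwards [h2] with p hp
    simp only [Function.uncurry, mul_one]
    by_cases hy : p.1 ∈ Metric.closedBall (0 : V n) R
    · rw [indicator_of_mem hy, norm_mul]
      exact mul_le_mul (hC₁ _ hy) (hC₂ _) (norm_nonneg _) hC1
    · rw [indicator_of_notMem hy]
      have h3 : p.1 - p.2 ∉ tsupport k := by
        intro h4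
        have h5 := hR₁ h4
        have h6 := hR₀ hp
        rw [mem_closedBall_zero_iff] at h5 h6 hy
        apply hy
        calc ‖p.1‖ = ‖(p.1 - p.2) + p.2‖ := by rw [sub_add_cancel]
          _ ≤ ‖p.1 - p.2‖ + ‖p.2‖ := norm_add_le _ _
          _ ≤ R := by rw [hR]; linarith [le_abs_self R₀, le_abs_self R₁]
      rw [image_eq_zero_of_notMem_tsupport h3, mul_zero, norm_zero]

theorem fub {k F : V n → ℝ} (hk : Continuous k) (hkc : HasCompactSupport k)
    (hF : Continuous F) {K : Set (V n)} (hK : IsCompact K) (μ : Measure (V n)) [IsFiniteMeasure μ]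
    (hμ : μ Kᶜ = 0) :
    ∫ y, F y * ∫ x, k (y - x) ∂μ = ∫ x, (∫ y, F y * k (y - x)) ∂μ := by
  simp_rw [← integral_const_mul]
  exact integral_integral_swap (prod_integrable hk hkc hF hK μ hμ)

theorem fub_integrable_right {k F : V n → ℝ} (hk : Continuous k) (hkc : HasCompactSupport k)
    (hF : Continuous F) {K : Set (V n)} (hK : IsCompact K) (μ : Measure (V n)) [IsFiniteMeasure μ]
    (hμ : μ Kᶜ = 0) : Integrable (fun x => ∫ y, F y * k (y - x)) μ :=
  (prod_integrable hk hkc hF hK μ hμ).integral_prod_right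

theorem fub_integrable_left {k F : V n → ℝ} (hk : Continuous k) (hkc : HasCompactSupport k)
    (hF : Continuous F) {K : Set (V n)} (hK : IsCompact K) (μ : Measure (V n)) [IsFiniteMeasure μ]
    (hμ : μ Kᶜ = 0) : Integrable (fun y => F y * ∫ x, k (y - x) ∂μ) := by
  have := (prod_integrable hk hkc hF hK μ hμ).integral_prod_left
  simpa [Function.uncurry, integral_const_mul] using this

theorem mass {k : V n → ℝ} (hk : Continuous k) (hkc : HasCompactSupport k)
    {K : Set (V n)} (hK : IsCompact K) (μ : Measure (V n)) [IsFiniteMeasure μ]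
    (hμ : μ Kᶜ = 0) : ∫ y, ∫ x, k (y - x) ∂μ = (∫ y, k y) * μ.real univ := by
  have h := fub hk hkc (F := fun _ => 1) continuous_const hK μ hμ
  simp only [one_mul] at h
  rw [h]
  have : ∀ x, ∫ y, k (y - x) = ∫ y, k y := fun x => integral_sub_right_eq_self k x
  simp_rw [this, integral_const, smul_eq_mul, mul_comm]

theorem approx {k : V n → ℝ} (hk : Continuous k) (hkc : HasCompactSupport k)
    (hk0 : ∀ x, k x ≤ 0) {ε : ℝ} (hkz : ∀ x, ε < ‖x‖ → k x = 0) {K : Set (V n)} (hK : IsCompact K)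
    (μ : Measure (V n)) [IsFiniteMeasure μ] (hμ : μ Kᶜ = 0) {f F : V n → ℝ} (hf : Continuous f)
    (hF : Continuous F) {κ : ℝ} (hκ : ∀ x ∈ K, ∀ z, ‖z - x‖ ≤ ε → |F z - f x| ≤ κ) :
    |(∫ y, F y * ∫ x, k (y - x) ∂μ) - (∫ y, k y) * ∫ x, f x ∂μ| ≤
      κ * (-∫ y, k y) * μ.real univ := by
  have haeK : ∀ᵐ x ∂μ, x ∈ K := by rw [ae_iff]; exact hμ
  have hfi : Integrable f μ := by
    have h1 : IntegrableOn f K μ := hf.continuousOn.integrableOn_compact hK
    rwa [IntegrableOn, Measure.restrict_eq_self_of_ae_mem haeK] at h1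
  rw [fub hk hkc hF hK μ hμ, ← integral_const_mul, ← integral_sub
    (fub_integrable_right hk hkc hF hK μ hμ) (hfi.const_mul _)]
  rw [← Real.norm_eq_abs]
  refine norm_integral_le_of_norm_le_const ?_
  filter_upwards [haeK] with x hx
  have hki : Integrable k := hk.integrable_of_hasCompactSupport hkc
  have hki2 : Integrable (fun y => k (y - x)) := hki.comp_sub_right x
  have h1 : (∫ y, k y) * f x = ∫ y, f x * k (y - x) := by
    rw [integral_const_mul, integral_sub_right_eq_self k x]; ring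
  have h2 : Integrable (fun y => F y * k (y - x)) := by
    refine (hF.mul (hk.comp (continuous_id.sub continuous_const))).integrable_of_hasCompactSupport ?_
    exact (hkc.comp_homeomorph (Homeomorph.subRight x)).mul_left
  rw [h1, ← integral_sub h2 (hki2.const_mul _)]
  have h3 : κ * (-∫ y, k y) = ∫ y, κ * (- k (y - x)) := by
    rw [integral_const_mul, integral_neg, integral_sub_right_eq_self k x]
  rw [h3]
  refine norm_integral_le_of_norm_le (hki2.neg.const_mul _) (Eventually.of_forall fun y => ?_)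
  rw [← sub_mul, norm_mul, Real.norm_eq_abs, Real.norm_eq_abs, abs_of_nonpos (hk0 _)]
  by_cases hy : ‖y - x‖ ≤ ε
  · exact mul_le_mul_of_nonneg_right (hκ x hx y hy) (by linarith [hk0 (y - x)])
  · rw [hkz _ (not_le.1 hy)]; simp

end Pool.Agent.R402.HA
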