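import Pool.Agent.R402.HA.As1

/-!
# Assembly, part 2: the sum over the balls
-/

open MeasureTheory Set Filter Topology
open scoped ENNReal NNReal ContDiff Laplacian

namespace Pool.Agent.R402.HA

theorem le_of_forall_delta {X Y W : ℝ} (hW : 0 ≤ W) (h : ∀ δ : ℝ, 0 < δ → X ≤ Y + δ * W) : X ≤ Y := by
  by_contra hne
  push Not at hne
  have h1 := h ((X - Y) / (2 * (W + 1))) (by apply div_pos <;> linarith)
  have h2 : (X - Y) / (2 * (W + 1)) * W ≤ (X - Y) / 2 := by
    rw [div_mul_eq_mul_div, div_le_div_iff₀ (by positivity) (by norm_num)]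
    nlinarith
  linarith

theorem sum_part (hCP : CPStm) (n : ℕ) (hn : 3 ≤ n) : ∃ A : ℝ, 0 < A ∧ ∀ (r : ℝ), 0 < r →
    ∀ (u : V n → ℝ), ContDiff ℝ ((⊤ : ℕ∞) : WithTop ℕ∞) u → HasCompactSupport u →
    ∀ (J : Finset (V n)) (Q : ℝ), 
      (∀ x : V n, ((J.filter (fun j => ‖x - j‖ ≤ 13 * r)).card : ℝ) ≤ Q) →
      ∀ (τ : ℝ), 0 < τ → ∀ (E : V n → Set (V n)) (mm : V n → Measure (V n)),
      (∀ j ∈ J, IsCompact (E j) ∧ E j ⊆ Metric.closedBall j (3 * r) ∧ IsFiniteMeasure (mm j) ∧
        PotLeOne (E j) (mm j) ∧ ∀ x ∈ Metric.cthickening τ (E j), u x = 0) →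
      ∑ j ∈ J, (mm j univ).toReal * ∫ x in Metric.closedBall j (2 * r), |u x| ≤
        A * r ^ n * Q * ∫ x, |Δ u x| := by
  obtain ⟨A, hA, hcp⟩ := hCP n hn
  refine ⟨A, hA, ?_⟩
  intro r hr u hu huc J Q hQ τ hτ E mm hE
  refine le_of_forall_delta (W := ∑ j ∈ J, (mm j univ).toReal *
    (volume (Metric.closedBall j (2 * r))).toReal) (by positivity) fun δ hδ => ?_
  obtain ⟨g, hg, hgc, hg0, hgu, hgz, hgL, hgint⟩ := kato n u hu huc δ hδ
  set L : V n → ℝ := fun x => Δ g x + |Δ u x| with hL
  have hLc : Continuous L := (contDiff_lap hg).continuous.add (contDiff_lap hu).continuous.abs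
  have hLi : Integrable L := by
    refine Integrable.add ?_ ?_
    · exact (contDiff_lap hg).continuous.integrable_of_hasCompactSupport (hasCompactSupport_lap hgc)
    · exact ((contDiff_lap hu).continuous.integrable_of_hasCompactSupport
        (hasCompactSupport_lap huc)).abs
  have h1 : ∀ j ∈ J, (mm j univ).toReal * ∫ x in Metric.closedBall j (2 * r), |u x| ≤
      A * r ^ n * (∫ x in Metric.closedBall j (13 * r), L x) +
        δ * ((mm j univ).toReal * (volume (Metric.closedBall j (2 * r))).toReal) := by
    intro j hj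
    obtain ⟨hE1, hE2, hE3, hE4, hE5⟩ := hE j hj
    have h2 := hcp r hr j g L hg hgc hg0 hLc (fun x => by simp [hL]) hgL (E j) (mm j) hE1 hE2 hE3 hE4
      τ hτ (fun x hx => hgz x (hE5 x hx))
    have h3 : ∫ x in Metric.closedBall j (2 * r), |u x| ≤
        (∫ x in Metric.closedBall j (2 * r), g x) +
          δ * (volume (Metric.closedBall j (2 * r))).toReal := by
      have h4 : IntegrableOn g (Metric.closedBall j (2 * r)) :=
        hg.continuous.continuousOn.integrableOn_compact (isCompact_closedBall _ _)
      have h5 : IntegrableOn (fun _ : V n => δ) (Metric.closedBall j (2 * r)) :=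
        continuousOn_const.integrableOn_compact (isCompact_closedBall _ _)
      have h6 : ∫ x in Metric.closedBall j (2 * r), |u x| ≤
          ∫ x in Metric.closedBall j (2 * r), (g x + δ) := by
        refine integral_mono ?_ (h4.add h5) hgu
        exact hu.continuous.abs.continuousOn.integrableOn_compact (isCompact_closedBall _ _)
      refine h6.trans (le_of_eq ?_)
      rw [integral_add h4 h5, setIntegral_const, smul_eq_mul, Measure.real, mul_comm δ]
    calc (mm j univ).toReal * ∫ x in Metric.closedBall j (2 * r), |u x|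
        ≤ (mm j univ).toReal * ((∫ x in Metric.closedBall j (2 * r), g x) +
          δ * (volume (Metric.closedBall j (2 * r))).toReal) :=
          mul_le_mul_of_nonneg_left h3 ENNReal.toReal_nonneg
      _ = (mm j univ).toReal * (∫ x in Metric.closedBall j (2 * r), g x) +
          δ * ((mm j univ).toReal * (volume (Metric.closedBall j (2 * r))).toReal) := by ring
      _ ≤ _ := by linarith
  refine (Finset.sum_le_sum h1).trans ?_
  rw [Finset.sum_add_distrib, ← Finset.mul_sum, ← Finset.mul_sum]
  have h2 : ∑ j ∈ J, ∫ x in Metric.closedBall j (13 * r), L x ≤ Q * ∫ x, |Δ u x| := by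
    have h3 : ∀ j ∈ J, ∫ x in Metric.closedBall j (13 * r), L x =
        ∫ x, (Metric.closedBall j (13 * r)).indicator L x := fun j _ =>
      (integral_indicator Metric.isClosed_closedBall.measurableSet).symm
    rw [Finset.sum_congr rfl h3, ← integral_finsetSum]
    · rw [← hgint, ← integral_const_mul]
      refine integral_mono ?_ (hLi.const_mul Q) fun x => ?_
      · exact integrable_finsetSum _ fun j _ =>
          hLi.indicator Metric.isClosed_closedBall.measurableSet
      · simp only
        have h4 : ∀ j ∈ J, (Metric.closedBall j (13 * r)).indicator L x =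
            if ‖x - j‖ ≤ 13 * r then L x else 0 := by
          intro j _
          by_cases hx : x ∈ Metric.closedBall j (13 * r)
          · rw [indicator_of_mem hx, if_pos (mem_closedBall_iff_norm.1 hx)]
          · rw [indicator_of_notMem hx, if_neg (fun h => hx (mem_closedBall_iff_norm.2 h))]
        rw [Finset.sum_congr rfl h4, ← Finset.sum_filter, Finset.sum_const, nsmul_eq_mul]
        exact mul_le_mul_of_nonneg_right (hQ x) (hgL x)
    · exact fun j _ => hLi.indicator Metric.isClosed_closedBall.measurableSet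
  have h3 : A * r ^ n * ∑ j ∈ J, ∫ x in Metric.closedBall j (13 * r), L x ≤
      A * r ^ n * Q * ∫ x, |Δ u x| := by
    calc _ ≤ A * r ^ n * (Q * ∫ x, |Δ u x|) := mul_le_mul_of_nonneg_left h2 (by positivity)
      _ = _ := by ring
  linarith

end Pool.Agent.R402.HA
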