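import Pool.Agent.R402.HA.As1

/-!
# Assembly, part 3: mollification
-/

open MeasureTheory Set Filter Topology
open scoped ENNReal NNReal ContDiff Laplacian

namespace Pool.Agent.R402.HA

variable {n : ℕ}

theorem conv_part (hP : PotStm) {u f ρ : V n → ℝ} (hu : ContDiff ℝ ((⊤ : ℕ∞) : WithTop ℕ∞) u)
    (huc : HasCompactSupport u) (hf : Continuous f) (hρ : Continuous ρ) (hρ0 : ∀ x, 0 ≤ ρ x)
    (hρs : tsupport ρ ⊆ Metric.closedBall 0 1) {r : ℝ} (hr : 0 < r) {T B : ℝ}
    (hI : ∀ x : V n, ‖x‖ ≤ r → |(∫ z, f (z + x) * Δ u z) - T| ≤ B) :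
    ContDiff ℝ ((⊤ : ℕ∞) : WithTop ℕ∞) (fun x => ∫ y, u y * ρ (r⁻¹ • (x - y))) ∧
    HasCompactSupport (fun x => ∫ y, u y * ρ (r⁻¹ • (x - y))) ∧
    (∀ R, (∀ x, R < ‖x‖ → u x = 0) → ∀ x, R + r < ‖x‖ → ∫ y, u y * ρ (r⁻¹ • (x - y)) = 0) ∧
    |(∫ x, f x * Δ (fun x => ∫ y, u y * ρ (r⁻¹ • (x - y))) x) - T * ∫ z, ρ (r⁻¹ • z)| ≤
      B * ∫ z, ρ (r⁻¹ • z) := by
  have hρr : Continuous (fun z : V n => ρ (r⁻¹ • z)) := hρ.comp (continuous_const_smul _)
  have hρz : ∀ z : V n, r < ‖z‖ → ρ (r⁻¹ • z) = 0 := by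
    intro z hz
    apply image_eq_zero_of_notMem_tsupport
    intro h
    have h1 := hρs h
    rw [mem_closedBall_zero_iff, norm_smul, norm_inv, Real.norm_of_nonneg hr.le,
      inv_mul_le_iff₀ hr, mul_one] at h1
    linarith
  have hρc : HasCompactSupport (fun z : V n => ρ (r⁻¹ • z)) := by
    refine HasCompactSupport.intro (isCompact_closedBall (0 : V n) r) fun z hz => hρz z ?_
    rw [mem_closedBall_zero_iff] at hz
    exact not_le.1 hz
  have hρi : Integrable (fun z : V n => ρ (r⁻¹ • z)) := hρr.integrable_of_hasCompactSupport hρc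
  set m : Measure (V n) := volume.withDensity (fun z => ENNReal.ofReal (ρ (r⁻¹ • z))) with hm
  have hmf : IsFiniteMeasure m := isFiniteMeasure_withDensity_ofReal hρi.2
  have hmm : Measurable (fun z : V n => ENNReal.ofReal (ρ (r⁻¹ • z))) :=
    ENNReal.measurable_ofReal.comp hρr.measurable
  have hmint : ∀ g : V n → ℝ, ∫ z, g z ∂m = ∫ z, ρ (r⁻¹ • z) * g z := by
    intro g
    rw [hm, integral_withDensity_eq_integral_toReal_smul hmm
      (Eventually.of_forall fun z => ENNReal.ofReal_lt_top)]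
    refine integral_congr_ae (Eventually.of_forall fun z => ?_)
    simp only [smul_eq_mul]
    rw [ENNReal.toReal_ofReal (hρ0 _)]
  have hmu : m.real univ = ∫ z, ρ (r⁻¹ • z) := by
    have h1 := hmint (fun _ => 1)
    simp only [integral_const, smul_eq_mul, mul_one] at h1
    exact h1
  have hm0 : m (Metric.closedBall 0 r)ᶜ = 0 := by
    rw [hm, withDensity_apply _ Metric.isClosed_closedBall.measurableSet.compl]
    rw [setLIntegral_congr_fun (g := fun _ => 0) Metric.isClosed_closedBall.measurableSet.compl]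
    · simp
    · intro z hz
      have hz' : ¬ (z ∈ Metric.closedBall (0 : V n) r) := hz
      rw [mem_closedBall_zero_iff] at hz'
      simp only [hρz z (not_le.1 hz'), ENNReal.ofReal_zero]
  have hv : (fun x => ∫ y, u y * ρ (r⁻¹ • (x - y))) = fun x => ∫ z, u (x - z) ∂m := by
    funext x
    rw [hmint]
    have h1 := integral_sub_left_eq_self (fun z : V n => ρ (r⁻¹ • z) * u (x - z)) volume x
    rw [← h1]
    refine integral_congr_ae (Eventually.of_forall fun y => ?_)
    simp only [sub_sub_cancel]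
    ring
  obtain ⟨h1, h2⟩ := hP n u hu (Metric.closedBall 0 r) (isCompact_closedBall _ _) m hmf hm0
  have h3 : ∀ R, (∀ x, R < ‖x‖ → u x = 0) → ∀ x, R + r < ‖x‖ →
      ∫ y, u y * ρ (r⁻¹ • (x - y)) = 0 := by
    intro R hR x hx
    have h4 : ∀ y, u y * ρ (r⁻¹ • (x - y)) = 0 := by
      intro y
      by_cases hy : R < ‖y‖
      · rw [hR y hy, zero_mul]
      · rw [hρz, mul_zero]
        have : ‖x‖ ≤ ‖x - y‖ + ‖y‖ := by
          calc ‖x‖ = ‖(x - y) + y‖ := by rw [sub_add_cancel]
            _ ≤ _ := norm_add_le _ _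
        linarith
    simp [h4]
  refine ⟨by rw [hv]; exact h1, ?_, h3, ?_⟩
  · obtain ⟨R, hR⟩ := huc.isCompact.isBounded.subset_closedBall (0 : V n)
    refine HasCompactSupport.intro (isCompact_closedBall (0 : V n) (R + r)) fun x hx => ?_
    refine h3 R ?_ x ?_
    · intro y hy
      apply image_eq_zero_of_notMem_tsupport
      intro h
      have := hR h
      rw [mem_closedBall_zero_iff] at this
      linarith
    · rw [mem_closedBall_zero_iff] at hx
      exact not_le.1 hx
  · rw [hv, ← hmu]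
    simp_rw [h2]
    have hk := (contDiff_lap hu).continuous
    have hkc := hasCompactSupport_lap huc
    rw [fub hk hkc hf (isCompact_closedBall (0 : V n) r) m hm0]
    have h5 : T * m.real univ = ∫ x, T ∂m := by
      rw [integral_const, smul_eq_mul, mul_comm]
    rw [h5, ← integral_sub (fub_integrable_right hk hkc hf (isCompact_closedBall (0 : V n) r) m hm0)
      (integrable_const _), ← Real.norm_eq_abs]
    refine norm_integral_le_of_norm_le_const ?_
    have h6 : ∀ᵐ x ∂m, x ∈ Metric.closedBall (0 : V n) r := by rw [ae_iff]; exact hm0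
    filter_upwards [h6] with x hx
    rw [mem_closedBall_zero_iff] at hx
    have h7 : ∫ y, f y * Δ u (y - x) = ∫ z, f (z + x) * Δ u z := by
      rw [← integral_add_right_eq_self (fun y => f y * Δ u (y - x)) x]
      simp only [add_sub_cancel_right]
    rw [h7]
    exact hI x hx

end Pool.Agent.R402.HA
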