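import Pool.Agent.R402.HA.As1

/-!
# Assembly, part 4: condition (2) applied to a localized function
-/

open MeasureTheory Set Filter Topology
open scoped ENNReal NNReal ContDiff Laplacian

namespace Pool.Agent.R402.HA

theorem diam_pos_of_ne_zero {n : ℕ} (hn : 0 < n) {φ : V n → ℝ} (hφ : Continuous φ)
    (hc : HasCompactSupport φ) (h0 : φ ≠ 0) : 0 < Metric.diam (tsupport φ) := by
  obtain ⟨x, hx⟩ : ∃ x, φ x ≠ 0 := by
    by_contra h
    push Not at h
    exact h0 (funext h)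
  have hop : IsOpen {y | φ y ≠ 0} := isOpen_ne_fun hφ continuous_const
  obtain ⟨s, hs, hball⟩ := Metric.isOpen_iff.1 hop x hx
  have he : ‖(EuclideanSpace.single ⟨0, hn⟩ (s / 2) : V n)‖ = s / 2 := by
    simp [abs_of_pos hs]
  set y : V n := x + EuclideanSpace.single ⟨0, hn⟩ (s / 2) with hy
  have hd : dist y x = s / 2 := by
    rw [dist_eq_norm, hy, add_sub_cancel_left, he]
  have h1 : y ∈ tsupport φ := subset_tsupport _ (hball (by rw [Metric.mem_ball, hd]; linarith))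
  have h2 : x ∈ tsupport φ := subset_tsupport _ hx
  have h3 := Metric.dist_le_diam_of_mem hc.isCompact.isBounded h1 h2
  rw [hd] at h3
  linarith

theorem cap_mono {n : ℕ} {A B : Set (V n)} (h : A ⊆ B) : cap A ≤ cap B := by
  unfold cap
  refine iSup_mono fun E => iSup_mono fun hE => ?_
  exact iSup_le fun hA => le_iSup_of_le (hA.trans h) le_rfl

theorem loc_bound (hB : BallStm) (hN : NormStm) (n : ℕ) (hn : 0 < n) (ψ ρ : V n → ℝ)
    (hψ : ContDiff ℝ ((⊤ : ℕ∞) : WithTop ℕ∞) ψ) (hρ : ContDiff ℝ ((⊤ : ℕ∞) : WithTop ℕ∞) ρ)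
    (hψs : tsupport ψ ⊆ Metric.closedBall 0 1) (hρs : tsupport ρ ⊆ Metric.closedBall 0 1) (m : ℕ) :
    ∃ A : ℝ, 0 < A ∧ ∀ (K : Set (V n)) (f : V n → ℝ) (η : ℝ → ℝ), MonotoneOn η (Ioi 0) →
      (∀ t ∈ Ioi (0 : ℝ), 0 ≤ η t) →
      (∀ φ : V n → ℝ, ContDiff ℝ ((⊤ : ℕ∞) : WithTop ℕ∞) φ → HasCompactSupport φ → φ ≠ 0 →
        ∀ c ρ, IsLeastBall (tsupport φ) c ρ →
        ENNReal.ofReal |∫ x, f x * Δ φ x| ≤
          ENNReal.ofReal (η (Metric.diam (tsupport φ)) * starNormK m φ) *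
            cap (Metric.closedBall c ρ \ K)) →
      ∀ (r : ℝ), 0 < r → ∀ (x₀ : V n) (u : V n → ℝ), Continuous u →
        ContDiff ℝ ((⊤ : ℕ∞) : WithTop ℕ∞) (fun x => ∫ y, u y * ρ (r⁻¹ • (x - y))) →
        ENNReal.ofReal |∫ x, f x * Δ (fun x => ψ (r⁻¹ • (x - x₀)) *
          ∫ y, u y * ρ (r⁻¹ • (x - y))) x| ≤
          ENNReal.ofReal (η (2 * r) * (A * ∫ y in Metric.closedBall x₀ (2 * r), |u y|)) *
            cap (Metric.closedBall x₀ (3 * r) \ K) := by
  choose Ai hAi hAb using hN n ψ ρ hψ hρ hψs hρs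
  refine ⟨∑ i ∈ Finset.range (m + 1), 2 ^ i * Ai i,
    Finset.sum_pos (fun i _ => mul_pos (by positivity) (hAi i)) ⟨0, by simp⟩, ?_⟩
  intro K f η hηm hη0 h2 r hr x₀ u hu hv
  set φ : V n → ℝ := fun x => ψ (r⁻¹ • (x - x₀)) * ∫ y, u y * ρ (r⁻¹ • (x - y)) with hφ
  set I : ℝ := ∫ y in Metric.closedBall x₀ (2 * r), |u y| with hI
  have hI0 : 0 ≤ I := integral_nonneg fun y => abs_nonneg _
  have hφs : ContDiff ℝ ((⊤ : ℕ∞) : WithTop ℕ∞) φ := by
    refine ContDiff.mul ?_ hv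
    exact hψ.comp ((contDiff_id.sub contDiff_const).const_smul r⁻¹)
  have hφz : ∀ x, x ∉ Metric.closedBall x₀ r → φ x = 0 := by
    intro x hx
    have : ψ (r⁻¹ • (x - x₀)) = 0 := by
      apply image_eq_zero_of_notMem_tsupport
      intro h
      have h1 := hψs h
      rw [mem_closedBall_zero_iff, norm_smul, norm_inv, Real.norm_of_nonneg hr.le,
        inv_mul_le_iff₀ hr, mul_one] at h1
      exact hx (mem_closedBall_iff_norm.2 h1)
    simp only [hφ, this, zero_mul]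
  have hφt : tsupport φ ⊆ Metric.closedBall x₀ r := by
    refine closure_minimal ?_ Metric.isClosed_closedBall
    intro x hx
    by_contra hne
    exact hx (hφz x hne)
  have hφc : HasCompactSupport φ := HasCompactSupport.intro (isCompact_closedBall x₀ r) hφz
  by_cases hφ0 : φ = 0
  · rw [hφ0]
    have : ∀ x, Δ (0 : V n → ℝ) x = 0 := by
      intro x
      have h3 : (0 : V n → ℝ) = fun _ => (0 : ℝ) := rfl
      rw [h3]; simp
    simp [this]
  have hdpos := diam_pos_of_ne_zero hn hφs.continuous hφc hφ0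
  have hdle : Metric.diam (tsupport φ) ≤ 2 * r :=
    (Metric.diam_mono hφt Metric.isBounded_closedBall).trans (Metric.diam_closedBall hr.le)
  have hne : (tsupport φ).Nonempty := by
    by_contra h
    rw [not_nonempty_iff_eq_empty, tsupport_eq_empty_iff] at h
    exact hφ0 h
  obtain ⟨c, s, hcs⟩ := hB n (tsupport φ) hφc.isCompact hne
  have hsr : s ≤ r := hcs.2 x₀ r hφt
  obtain ⟨p, hp⟩ := hne
  have hsub : Metric.closedBall c s \ K ⊆ Metric.closedBall x₀ (3 * r) \ K := by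
    refine sdiff_subset_sdiff_left ?_
    intro y hy
    have h3 := hcs.1 hp
    have h4 := hφt hp
    rw [Metric.mem_closedBall] at h3 h4 hy ⊢
    calc dist y x₀ ≤ dist y c + dist c x₀ := dist_triangle _ _ _
      _ ≤ dist y c + (dist c p + dist p x₀) := by gcongr; exact dist_triangle _ _ _
      _ ≤ s + (s + r) := by rw [dist_comm c p]; gcongr
      _ ≤ 3 * r := by linarith
  have hnorm : starNormK m φ ≤ (∑ i ∈ Finset.range (m + 1), 2 ^ i * Ai i) * I := by
    unfold starNormK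
    rw [Finset.sum_mul]
    refine Finset.sum_le_sum fun i _ => ?_
    have h3 : ⨆ x, ‖iteratedFDeriv ℝ i φ x‖ ≤ Ai i * r⁻¹ ^ i * I :=
      ciSup_le fun x => hAb i r hr x₀ u hu x
    have h4 : 0 ≤ ⨆ x, ‖iteratedFDeriv ℝ i φ x‖ := Real.iSup_nonneg fun x => norm_nonneg _
    calc Metric.diam (tsupport φ) ^ i * ⨆ x, ‖iteratedFDeriv ℝ i φ x‖
        ≤ (2 * r) ^ i * (Ai i * r⁻¹ ^ i * I) := by gcongr
      _ = 2 ^ i * Ai i * I := by
          rw [mul_pow, inv_pow]; field_simp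
  refine (h2 φ hφs hφc hφ0 c s hcs).trans ?_
  refine mul_le_mul' (ENNReal.ofReal_le_ofReal ?_) (cap_mono hsub)
  have h5 : 0 ≤ η (Metric.diam (tsupport φ)) := hη0 _ hdpos
  have h6 : η (Metric.diam (tsupport φ)) ≤ η (2 * r) :=
    hηm hdpos (show (0 : ℝ) < 2 * r by positivity) hdle
  have h7 : 0 ≤ (∑ i ∈ Finset.range (m + 1), 2 ^ i * Ai i) * I :=
    mul_nonneg (Finset.sum_nonneg fun i _ => mul_nonneg (by positivity) (hAi i).le) hI0
  calc η (Metric.diam (tsupport φ)) * starNormK m φ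
      ≤ η (Metric.diam (tsupport φ)) * ((∑ i ∈ Finset.range (m + 1), 2 ^ i * Ai i) * I) :=
        mul_le_mul_of_nonneg_left hnorm h5
    _ ≤ _ := mul_le_mul_of_nonneg_right h6 h7

end Pool.Agent.R402.HA
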