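import Pool.Agent.R402.HA.As2
import Pool.Agent.R402.HA.As3
import Pool.Agent.R402.HA.As4

/-!
# Assembly, part 5: the main inequality at a fixed scale
-/

open MeasureTheory Set Filter Topology
open scoped ENNReal NNReal ContDiff Laplacian

namespace Pool.Agent.R402.HA

theorem main_ineq (hKer : KerStm) (hP : PotStm) (hB : BallStm) (hN : NormStm) (hC : CapStm)
    (hPU : PUStm) (hCP : CPStm) (n : ℕ) (hn : 3 ≤ n) (m : ℕ) :
    ∃ A : ℝ, 0 ≤ A ∧ ∀ (K : Set (V n)), IsCompact K → ∀ f : V n → ℝ, Continuous f →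
      ∀ η : ℝ → ℝ, MonotoneOn η (Ioi 0) → (∀ t ∈ Ioi (0 : ℝ), 0 ≤ η t) →
      (∀ φ : V n → ℝ, ContDiff ℝ ((⊤ : ℕ∞) : WithTop ℕ∞) φ → HasCompactSupport φ → φ ≠ 0 →
        ∀ c ρ, IsLeastBall (tsupport φ) c ρ →
        ENNReal.ofReal |∫ x, f x * Δ φ x| ≤
          ENNReal.ofReal (η (Metric.diam (tsupport φ)) * starNormK m φ) *
            cap (Metric.closedBall c ρ \ K)) →
      ∀ (μ ν : Measure (V n)) [IsFiniteMeasure μ] [IsFiniteMeasure ν], μ Kᶜ = 0 → ν Kᶜ = 0 →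
      (∀ h : V n → ℝ, HarmonicNear K h → ∫ x, h x ∂μ = ∫ x, h x ∂ν) →
      ∀ r κ : ℝ, 0 < r → 0 ≤ κ → (∀ x ∈ K, ∀ z, ‖z - x‖ ≤ 2 * r → |f z - f x| ≤ κ) →
      |∫ x, f x ∂μ - ∫ x, f x ∂ν| ≤ (κ + A * η (2 * r)) * (μ.real univ + ν.real univ) := by
  have hn0 : 0 < n := by omega
  obtain ⟨ψ, hψ, hψs, Q, hQ, hpu⟩ := hPU n hn0
  let bmp : ContDiffBump (0 : V n) := ⟨1 / 2, 1, by norm_num, by norm_num⟩
  set ρ : V n → ℝ := fun x => bmp x with hρdef
  have hρ : ContDiff ℝ ((⊤ : ℕ∞) : WithTop ℕ∞) ρ := bmp.contDiff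
  have hρ0 : ∀ x, 0 ≤ ρ x := fun x => bmp.nonneg
  have hρs : tsupport ρ ⊆ Metric.closedBall 0 1 := by
    have := bmp.tsupport_eq
    exact this.le
  have hcρ : 0 < ∫ x, ρ x := bmp.integral_pos
  obtain ⟨A₁, hA₁, hloc⟩ := loc_bound hB hN n hn0 ψ ρ hψ hρ hψs hρs m
  obtain ⟨A₂, hA₂, hsum⟩ := sum_part hCP n hn
  refine ⟨2 * A₁ * A₂ * Q / ∫ x, ρ x, by positivity, ?_⟩
  intro K hK f hf η hηm hη0 h2 μ ν hμf hνf hμ hν hann r κ hr hκ0 hκ
  obtain ⟨R₀, hR₀⟩ := hK.isBounded.subset_closedBall (0 : V n)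
  obtain ⟨J, hJ1, hJ2⟩ := hpu r (|R₀| + 2 * r + 1) hr (by positivity)
  have hdata : ∀ j : V n, cap (Metric.closedBall j (3 * r) \ K) < ⊤ ∧
      ∃ (E : Set (V n)) (mm : Measure (V n)), IsCompact E ∧ E ⊆ Metric.closedBall j (3 * r) \ K ∧
        IsFiniteMeasure mm ∧ PotLeOne E mm ∧
        cap (Metric.closedBall j (3 * r) \ K) ≤ 2 * mm univ := fun j =>
    hC n hn j (3 * r) _ sdiff_subset
  choose hcapfin E mm hE1 hE2 hE3 hE4 hE5 using hdata
  have hdis : ∀ j : V n, ∃ δ : ℝ, 0 < δ ∧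
      Disjoint (Metric.cthickening δ (E j)) (Metric.cthickening δ K) := by
    intro j
    have h1 : Disjoint (E j) K := by
      rw [Set.disjoint_left]
      intro x hx hxK
      exact (hE2 j hx).2 hxK
    exact h1.exists_cthickenings (hE1 j) hK.isClosed
  choose dj hdj0 hdj using hdis
  obtain ⟨ε, ⟨hε1, hε2⟩, hε0⟩ : ∃ ε : ℝ, ((∀ j ∈ J, ε ≤ dj j) ∧ ε ≤ r) ∧ 0 < ε := by
    have h1 : ∀ᶠ ε in 𝓝[>] (0 : ℝ), ∀ j ∈ J, ε ≤ dj j := by
      rw [Filter.eventually_all_finset]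
      intro j _
      have : ∀ᶠ ε in 𝓝 (0 : ℝ), ε ≤ dj j := ge_mem_nhds (hdj0 j)
      exact this.filter_mono nhdsWithin_le_nhds
    have h2 : ∀ᶠ ε in 𝓝[>] (0 : ℝ), ε ≤ r := by
      have : ∀ᶠ ε in 𝓝 (0 : ℝ), ε ≤ r := ge_mem_nhds hr
      exact this.filter_mono nhdsWithin_le_nhds
    have h3 : ∀ᶠ ε in 𝓝[>] (0 : ℝ), 0 < ε := eventually_mem_nhdsWithin
    exact ((h1.and h2).and h3).exists
  obtain ⟨G, hG, hGpos, hGle, hGeq, hGmono, hGlap, hGlap0, hGint⟩ := hKer n hn ε hε0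
  set k : V n → ℝ := Δ G with hk
  have hkcont : Continuous k := (contDiff_lap hG).continuous
  have hkc : HasCompactSupport k := by
    refine HasCompactSupport.intro (isCompact_closedBall (0 : V n) ε) fun x hx => ?_
    rw [mem_closedBall_zero_iff] at hx
    exact hGlap0 x (not_le.1 hx)
  set c : ℝ := -∫ x, k x with hc
  have hcpos : 0 < c := by rw [hc]; linarith
  obtain ⟨hP1, hP2⟩ := hP n G hG K hK μ hμf hμ
  obtain ⟨hP3, hP4⟩ := hP n G hG K hK ν hνf hν
  set u : V n → ℝ := fun y => (∫ x, G (y - x) ∂μ) - ∫ x, G (y - x) ∂ν with hu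
  have hus : ContDiff ℝ ((⊤ : ℕ∞) : WithTop ℕ∞) u := hP1.sub hP3
  have hulap : ∀ y, Δ u y = (∫ x, k (y - x) ∂μ) - ∫ x, k (y - x) ∂ν := by
    intro y
    have h1 : u = (fun y => ∫ x, G (y - x) ∂μ) - fun y => ∫ x, G (y - x) ∂ν := rfl
    rw [h1, ContDiffAt.laplacian_sub (hP1.of_le two_le_inf).contDiffAt
      (hP3.of_le two_le_inf).contDiffAt, hP2, hP4]
  have huz : ∀ y, (∀ x ∈ K, ε < ‖y - x‖) → u y = 0 := by
    intro y hy
    simp only [hu]
    rw [pot_zero hG hGlap0 hann y hy, sub_self]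
  have huz2 : ∀ y : V n, |R₀| + ε < ‖y‖ → u y = 0 := by
    intro y hy
    refine huz y fun x hx => ?_
    have h1 := hR₀ hx
    rw [mem_closedBall_zero_iff] at h1
    have h2 : ‖y‖ ≤ ‖y - x‖ + ‖x‖ := by
      calc ‖y‖ = ‖(y - x) + x‖ := by rw [sub_add_cancel]
        _ ≤ _ := norm_add_le _ _
    linarith [le_abs_self R₀]
  have huc : HasCompactSupport u := by
    refine HasCompactSupport.intro (isCompact_closedBall (0 : V n) (|R₀| + ε)) fun x hx => ?_
    rw [mem_closedBall_zero_iff] at hx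
    exact huz2 x (not_le.1 hx)
  set D : ℝ := ∫ x, f x ∂μ - ∫ x, f x ∂ν with hD
  set M : ℝ := μ.real univ + ν.real univ with hM
  have hM0 : 0 ≤ M := by positivity
  have hI : ∀ x : V n, ‖x‖ ≤ r → |(∫ z, f (z + x) * Δ u z) - (∫ x, k x) * D| ≤ κ * c * M := by
    intro x hx
    have hFc : Continuous (fun z => f (z + x)) := hf.comp (continuous_id.add continuous_const)
    have hκ' : ∀ w ∈ K, ∀ z, ‖z - w‖ ≤ ε → |f (z + x) - f w| ≤ κ := by
      intro w hw z hz
      apply hκ w hw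
      calc ‖z + x - w‖ = ‖(z - w) + x‖ := by congr 1; abel
        _ ≤ ‖z - w‖ + ‖x‖ := norm_add_le _ _
        _ ≤ 2 * r := by linarith
    have h1 := approx hkcont hkc hGlap hGlap0 hK μ hμ hf hFc hκ'
    have h2 := approx hkcont hkc hGlap hGlap0 hK ν hν hf hFc hκ'
    have h3 : ∫ z, f (z + x) * Δ u z = (∫ z, f (z + x) * ∫ w, k (z - w) ∂μ) -
        ∫ z, f (z + x) * ∫ w, k (z - w) ∂ν := by
      rw [← integral_sub (fub_integrable_left hkcont hkc hFc hK μ hμ)
        (fub_integrable_left hkcont hkc hFc hK ν hν)]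
      refine integral_congr_ae (Eventually.of_forall fun z => ?_)
      simp only [hulap]
      ring
    rw [h3]
    have h4 : (∫ z, f (z + x) * ∫ w, k (z - w) ∂μ) - (∫ z, f (z + x) * ∫ w, k (z - w) ∂ν) -
        (∫ x, k x) * D = ((∫ z, f (z + x) * ∫ w, k (z - w) ∂μ) - (∫ x, k x) * ∫ x, f x ∂μ) -
        ((∫ z, f (z + x) * ∫ w, k (z - w) ∂ν) - (∫ x, k x) * ∫ x, f x ∂ν) := by
      rw [hD]; ring
    rw [h4]
    refine (abs_sub _ _).trans ?_
    have h5 : κ * c * M = κ * (-∫ y, k y) * μ.real univ + κ * (-∫ y, k y) * ν.real univ := by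
      rw [hM, hc]; ring
    rw [h5]
    exact add_le_add h1 h2
  obtain ⟨hv1, hv2, hv3, hv4⟩ := conv_part hP hus huc hf hρ.continuous hρ0 hρs hr hI
  set v : V n → ℝ := fun x => ∫ y, u y * ρ (r⁻¹ • (x - y)) with hv
  have hb : ∫ z, ρ (r⁻¹ • z) = r ^ n * ∫ x, ρ x := by
    rw [Measure.integral_comp_inv_smul]
    simp [abs_of_pos hr]
  set b : ℝ := ∫ z, ρ (r⁻¹ • z) with hbdef
  have hbpos : 0 < b := by rw [hb]; positivity
  -- the decomposition
  set φ : V n → V n → ℝ := fun j x => ψ (r⁻¹ • (x - j)) * v x with hφ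
  have hφs : ∀ j, ContDiff ℝ ((⊤ : ℕ∞) : WithTop ℕ∞) (φ j) := fun j =>
    (hψ.comp ((contDiff_id.sub contDiff_const).const_smul r⁻¹)).mul hv1
  have hφc : ∀ j, HasCompactSupport (φ j) := fun j => hv2.mul_left
  have hφsum : ∀ x, ∑ j ∈ J, φ j x = v x := by
    intro x
    simp only [hφ]
    rw [← Finset.sum_mul]
    by_cases hx : x ∈ Metric.closedBall (0 : V n) (|R₀| + 2 * r + 1)
    · rw [hJ1 x hx, one_mul]
    · rw [mem_closedBall_zero_iff] at hx
      have : v x = 0 := hv3 (|R₀| + ε) huz2 x (by linarith)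
      rw [this, mul_zero]
  have hlapv : ∀ x, Δ v x = ∑ j ∈ J, Δ (φ j) x := by
    intro x
    have h1 : v = fun x => ∑ j ∈ J, φ j x := funext fun x => (hφsum x).symm
    rw [h1]
    exact lap_sum J φ (fun j => (hφs j).of_le two_le_inf) x
  have hintv : ∫ x, f x * Δ v x = ∑ j ∈ J, ∫ x, f x * Δ (φ j) x := by
    rw [← integral_finsetSum]
    · refine integral_congr_ae (Eventually.of_forall fun x => ?_)
      simp only [hlapv, Finset.mul_sum]
    · intro j _
      exact (hf.mul (contDiff_lap (hφs j)).continuous).integrable_of_hasCompactSupport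
        (hasCompactSupport_lap (hφc j)).mul_left
  have hη2 : 0 ≤ η (2 * r) := hη0 _ (show (0 : ℝ) < 2 * r by positivity)
  have hterm : ∀ j ∈ J, |∫ x, f x * Δ (φ j) x| ≤ 2 * η (2 * r) * A₁ *
      ((mm j univ).toReal * ∫ y in Metric.closedBall j (2 * r), |u y|) := by
    intro j _
    have h1 := hloc K f η hηm hη0 h2 r hr j u hus.continuous hv1
    have h3 : 0 ≤ ∫ y in Metric.closedBall j (2 * r), |u y| := integral_nonneg fun y => abs_nonneg _
    have h4 : ENNReal.ofReal |∫ x, f x * Δ (φ j) x| ≤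
        ENNReal.ofReal (η (2 * r) * (A₁ * ∫ y in Metric.closedBall j (2 * r), |u y|)) *
          (2 * mm j univ) := h1.trans (mul_le_mul' le_rfl (hE5 j))
    have hfin : mm j univ ≠ ⊤ := (hE3 j).measure_univ_lt_top.ne
    have h5 := ENNReal.toReal_mono (by finiteness) h4
    rw [ENNReal.toReal_ofReal (abs_nonneg _), ENNReal.toReal_mul, ENNReal.toReal_mul,
      ENNReal.toReal_ofReal (by positivity)] at h5
    refine h5.trans (le_of_eq ?_)
    simp only [ENNReal.toReal_ofNat]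
    ring
  have hu0 : ∀ j ∈ J, ∀ x ∈ Metric.cthickening ε (E j), u x = 0 := by
    intro j hj x hx
    refine huz x fun y hy => ?_
    by_contra hne
    push Not at hne
    have h1 : x ∈ Metric.cthickening (dj j) K := by
      refine Metric.mem_cthickening_of_dist_le x y _ K hy ?_
      rw [dist_eq_norm]
      exact hne.trans (hε1 j hj)
    have h3 : x ∈ Metric.cthickening (dj j) (E j) := Metric.cthickening_mono (hε1 j hj) _ hx
    exact Set.disjoint_left.1 (hdj j) h3 h1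
  have hS := hsum r hr u hus huc J Q hJ2 ε hε0 E mm (fun j hj =>
    ⟨hE1 j, (hE2 j).trans sdiff_subset, hE3 j, hE4 j, hu0 j hj⟩)
  have hlapint : ∫ x, |Δ u x| ≤ c * M := by
    have h1 := mass hkcont hkc hK μ hμ
    have h3 := mass hkcont hkc hK ν hν
    have i1 := fub_integrable_left hkcont hkc (F := fun _ => 1) continuous_const hK μ hμ
    have i2 := fub_integrable_left hkcont hkc (F := fun _ => 1) continuous_const hK ν hν
    simp only [one_mul] at i1 i2
    have h4 : c * M = ∫ y, ((-∫ x, k (y - x) ∂μ) + (-∫ x, k (y - x) ∂ν)) := by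
      have h4' := integral_add i1.neg i2.neg
      simp only [Pi.neg_apply] at h4'
      rw [h4', integral_neg, integral_neg, h1, h3, hM, hc]
      ring
    rw [h4]
    refine integral_mono ?_ (i1.neg.add i2.neg) fun y => ?_
    · exact ((contDiff_lap hus).continuous.integrable_of_hasCompactSupport
        (hasCompactSupport_lap huc)).abs
    · simp only
      rw [hulap]
      have h5 : ∫ x, k (y - x) ∂μ ≤ 0 := integral_nonpos fun x => hGlap _
      have h6 : ∫ x, k (y - x) ∂ν ≤ 0 := integral_nonpos fun x => hGlap _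
      rw [abs_le]
      constructor <;> linarith
  have hX : |∫ x, f x * Δ v x| ≤ 2 * η (2 * r) * A₁ * (A₂ * r ^ n * Q * (c * M)) := by
    rw [hintv]
    refine (Finset.abs_sum_le_sum_abs _ _).trans ?_
    refine (Finset.sum_le_sum hterm).trans ?_
    rw [← Finset.mul_sum]
    refine mul_le_mul_of_nonneg_left ?_ (by positivity)
    refine hS.trans ?_
    exact mul_le_mul_of_nonneg_left hlapint (by positivity)
  have hfinal : c * |D| * b ≤ κ * c * M * b + 2 * η (2 * r) * A₁ * (A₂ * r ^ n * Q * (c * M)) := by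
    have h1 : c * |D| * b = |(∫ x, k x) * D * b| := by
      rw [abs_mul, abs_mul, abs_of_pos hbpos, ← abs_neg (∫ x, k x), ← hc, abs_of_pos hcpos]
    rw [h1]
    have h3 : (∫ x, k x) * D * b = (∫ x, f x * Δ v x) - ((∫ x, f x * Δ v x) - (∫ x, k x) * D * b) := by
      ring
    rw [h3]
    refine (abs_sub _ _).trans ?_
    linarith
  have h7 : c * b * |D| ≤ c * b * ((κ + 2 * A₁ * A₂ * Q / (∫ x, ρ x) * η (2 * r)) * M) := by
    have e1 : c * b * ((κ + 2 * A₁ * A₂ * Q / (∫ x, ρ x) * η (2 * r)) * M) =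
        κ * c * M * b + 2 * η (2 * r) * A₁ * (A₂ * r ^ n * Q * (c * M)) := by
      rw [hb]; field_simp
    rw [e1]
    linarith
  exact le_of_mul_le_mul_left h7 (by positivity)

end Pool.Agent.R402.HA
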