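import Pool.Agent.R402.HA.CPa

/-!
# The capacity Poincaré inequality
-/

open MeasureTheory Set Filter Topology
open scoped ENNReal NNReal ContDiff Laplacian

namespace Pool.Agent.R402.HA

variable {n : ℕ}

theorem exists_norm_eq (hn : 0 < n) {t : ℝ} (ht : 0 ≤ t) : ∃ w : V n, ‖w‖ = t := by
  refine ⟨EuclideanSpace.single ⟨0, hn⟩ t, ?_⟩
  simp [abs_of_nonneg ht]

theorem cp (hK : KerStm) (hP : PotStm) : CPStm := by
  intro n hn
  refine ⟨4 * 5 ^ (n - 2) / c0 n, by have := c0_pos hn; positivity, ?_⟩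
  intro r hr x₀ g L hg hgc hg0 hL hgL hL0 E ν hE hEs hνf hpot τ hτ hgz
  set N : ℝ := (ν univ).toReal with hN
  have hNn : 0 ≤ N := ENNReal.toReal_nonneg
  have hLint : 0 ≤ ∫ x in Metric.closedBall x₀ (13 * r), L x := integral_nonneg fun x => hL0 x
  have hc0 := c0_pos hn
  rcases hNn.eq_or_lt with hN0 | hNpos
  · rw [← hN0, zero_mul]; positivity
  set ε : ℝ := min (τ / 2) r with hε
  have hεpos : 0 < ε := lt_min (by linarith) hr
  obtain ⟨G, hG, hGpos, hGle, hGeq, hGmono, hGlap, hGlap0, -⟩ := hK n hn ε hεpos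
  obtain ⟨hPs, hPlap⟩ := hP n G hG E hE ν hνf hpot.1
  set P : V n → ℝ := fun y => ∫ x, G (y - x) ∂ν with hPdef
  have hGc : Continuous G := hG.continuous
  have hn0 : 0 < n := by omega
  set R : ℝ := (r ^ (n - 2))⁻¹ with hR
  have hRpos : 0 < R := by positivity
  -- G bounded
  have hGb : ∀ x, G x ≤ G 0 := fun x => hGmono 0 x (by simp)
  have hint : ∀ y, Integrable (fun x => G (y - x)) ν := by
    intro y
    refine Integrable.of_bound (C := G 0) (by fun_prop) (Eventually.of_forall fun x => ?_)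
    rw [Real.norm_of_nonneg (hGpos _).le]; exact hGb _
  have haeE : ∀ᵐ x ∂ν, x ∈ E := by
    rw [ae_iff]; exact hpot.1
  -- P ≤ 1
  have hP1 : ∀ y, P y ≤ 1 := by
    intro y
    have h1 : P y = (∫⁻ x, ENNReal.ofReal (G (y - x)) ∂ν).toReal := by
      rw [hPdef]
      exact integral_eq_lintegral_of_nonneg_ae (Eventually.of_forall fun x => (hGpos _).le)
        (by fun_prop)
    have h2 : ∫⁻ x, ENNReal.ofReal (G (y - x)) ∂ν ≤ 1 := by
      refine le_trans (lintegral_mono fun x => ?_) (hpot.2 y)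
      by_cases hxy : y - x = 0
      · simp only [hxy]
        rw [enorm_zero, zero_pow (by omega), ENNReal.inv_zero]
        exact le_top
      · have h3 := hGle (y - x) hxy
        have h4 : (‖y - x‖ₑ ^ (n - 2))⁻¹ = ENNReal.ofReal ((‖y - x‖ ^ (n - 2))⁻¹) := by
          rw [ENNReal.ofReal_inv_of_pos (by have := norm_pos_iff.2 hxy; positivity),
            ENNReal.ofReal_pow (norm_nonneg _), ofReal_norm]
        rw [h4]
        exact ENNReal.ofReal_le_ofReal h3
    rw [h1]
    exact ENNReal.toReal_le_of_le_ofReal zero_le_one (by simpa using h2)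
  -- lower bound
  obtain ⟨w, hw⟩ := exists_norm_eq hn0 (show 0 ≤ 5 * r by positivity)
  have hPlow : ∀ y, ‖y - x₀‖ ≤ 2 * r → ((5 * r) ^ (n - 2))⁻¹ * N ≤ P y := by
    intro y hy
    have h1 : G w = ((5 * r) ^ (n - 2))⁻¹ := by
      rw [hGeq w (by rw [hw]; exact le_trans (min_le_right _ _) (by linarith)), hw]
    have h2 : ∫ x, ((5 * r) ^ (n - 2))⁻¹ ∂ν ≤ P y := by
      refine integral_mono_ae (integrable_const _) (hint y) ?_
      filter_upwards [haeE] with x hx
      rw [← h1]
      refine hGmono _ _ ?_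
      rw [hw]
      have h3 := hEs hx
      rw [mem_closedBall_iff_norm] at h3
      calc ‖y - x‖ = ‖(y - x₀) - (x - x₀)‖ := by congr 1; abel
        _ ≤ ‖y - x₀‖ + ‖x - x₀‖ := norm_sub_le _ _
        _ ≤ 5 * r := by linarith
    rw [integral_const] at h2
    simpa [Measure.real, hN, mul_comm] using h2
  -- upper bound
  have hPup : ∀ y, 13 * r ≤ ‖y - x₀‖ → P y ≤ ((10 * r) ^ (n - 2))⁻¹ * N := by
    intro y hy
    have h2 : P y ≤ ∫ x, ((10 * r) ^ (n - 2))⁻¹ ∂ν := by
      refine integral_mono_ae (hint y) (integrable_const _) ?_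
      filter_upwards [haeE] with x hx
      have h3 := hEs hx
      rw [mem_closedBall_iff_norm] at h3
      have h4 : 10 * r ≤ ‖y - x‖ := by
        have : ‖y - x₀‖ ≤ ‖y - x‖ + ‖x - x₀‖ := by
          calc ‖y - x₀‖ = ‖(y - x) + (x - x₀)‖ := by congr 1; abel
            _ ≤ _ := norm_add_le _ _
        linarith
      have h5 : y - x ≠ 0 := by
        intro h6; rw [h6, norm_zero] at h4; linarith
      refine (hGle _ h5).trans ?_
      gcongr
    rw [integral_const] at h2
    simpa [Measure.real, hN, mul_comm] using h2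
  have hPlap0 : ∀ y, Δ P y ≤ 0 := by
    intro y; rw [hPlap y]
    exact integral_nonpos fun x => hGlap _
  have hPlapz : ∀ y, g y ≠ 0 → Δ P y = 0 := by
    intro y hy
    have h1 : y ∉ Metric.cthickening τ E := fun h => hy (hgz y h)
    rw [hPlap y]
    have h2 : ∀ᵐ x ∂ν, Δ G (y - x) = 0 := by
      filter_upwards [haeE] with x hx
      apply hGlap0
      by_contra h3
      push Not at h3
      apply h1
      refine Metric.mem_cthickening_of_dist_le y x τ E hx ?_
      rw [dist_eq_norm]
      exact h3.trans ((min_le_left _ _).trans (by linarith))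
    rw [integral_congr_ae h2]; simp
  set κ : ℝ := 4 * 5 ^ (n - 2) / N with hκ
  have hκpos : 0 < κ := by positivity
  set F : V n → ℝ := fun y => κ * P y - Hf x₀ r y with hF
  have hFs : ContDiff ℝ ((⊤ : ℕ∞) : WithTop ℕ∞) F := (contDiff_const.mul hPs).sub (Hf_contDiff x₀ hr)
  have hFlap : ∀ y, Δ F y = κ * Δ P y - Δ (Hf x₀ r) y := by
    intro y
    have h1 : F = (κ • P) - Hf x₀ r := by
      funext y; simp [hF]
    rw [h1, ContDiffAt.laplacian_sub, InnerProductSpace.laplacian_smul, smul_eq_mul]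
    · exact (hPs.of_le two_le_inf).contDiffAt
    · exact (contDiff_const.smul (hPs.of_le two_le_inf)).contDiffAt
    · exact (Hf_contDiff x₀ hr).contDiffAt
  have hFlow : ∀ y, ‖y - x₀‖ ≤ 2 * r → 3 * R ≤ F y := by
    intro y hy
    have h1 := hPlow y hy
    have h2 := Hf_le x₀ hr (by omega : 2 ≤ n) y
    have h3 : κ * (((5 * r) ^ (n - 2))⁻¹ * N) = 4 * R := by
      rw [hκ, hR, mul_pow]; field_simp
    have h4 := mul_le_mul_of_nonneg_left h1 hκpos.le
    rw [h3] at h4
    simp only [hF]
    linarith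
  have hFup : ∀ y, 13 * r ≤ ‖y - x₀‖ → F y ≤ 2 * R := by
    intro y hy
    have h1 := hPup y hy
    have h2 := (Hf_pos x₀ hr y).le
    have h3 : κ * (((10 * r) ^ (n - 2))⁻¹ * N) = 4 * R * (2 ^ (n - 2))⁻¹ := by
      rw [hκ, hR, show (10 : ℝ) * r = 5 * 2 * r by ring, mul_pow, mul_pow]; field_simp
    have h4 := mul_le_mul_of_nonneg_left h1 hκpos.le
    rw [h3] at h4
    have h5 : ((2 : ℝ) ^ (n - 2))⁻¹ ≤ 2⁻¹ := by
      apply inv_anti₀ (by norm_num)
      calc (2 : ℝ) = 2 ^ 1 := by norm_num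
        _ ≤ 2 ^ (n - 2) := pow_le_pow_right₀ (by norm_num) (by omega)
    have h6 : 4 * R * (2 ^ (n - 2))⁻¹ ≤ 4 * R * 2⁻¹ := mul_le_mul_of_nonneg_left h5 (by positivity)
    simp only [hF]
    linarith
  have hFκ : ∀ y, F y ≤ κ := by
    intro y
    have h1 := mul_le_mul_of_nonneg_left (hP1 y) hκpos.le
    have h2 := (Hf_pos x₀ hr y).le
    simp only [hF]
    linarith
  set Z : V n → ℝ := fun y => tr R (F y) with hZ
  have hZs : ContDiff ℝ ((⊤ : ℕ∞) : WithTop ℕ∞) Z := (tr_contDiff R).comp hFs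
  have hZ0 : ∀ y, 13 * r ≤ ‖y - x₀‖ → Z y = 0 := fun y hy => tr_zero hRpos (hFup y hy)
  have hZc : HasCompactSupport Z := by
    refine HasCompactSupport.intro (isCompact_closedBall x₀ (13 * r)) fun y hy => hZ0 y ?_
    rw [mem_closedBall_iff_norm] at hy
    push Not at hy
    exact hy.le
  have hZn : ∀ y, 0 ≤ Z y := fun y => tr_nonneg hRpos _
  have hZκ : ∀ y, Z y ≤ κ := fun y => (tr_le hRpos).trans (max_le (hFκ y) hκpos.le)
  have hZlap : ∀ y, deriv (tr R) (F y) * Δ F y ≤ Δ Z y := fun y =>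
    lap_comp_ge (tr R) F ((tr_contDiff R).of_le two_le_inf) (hFs.of_le two_le_inf) (tr_conv hRpos) y
  have hkey : ∀ y, (Metric.closedBall x₀ (2 * r)).indicator (fun y => c0 n * (r ^ n)⁻¹ * g y) y ≤
      g y * Δ Z y := by
    intro y
    by_cases hgy : g y = 0
    · rw [hgy, zero_mul]
      by_cases hy : y ∈ Metric.closedBall x₀ (2 * r)
      · rw [indicator_of_mem hy, hgy, mul_zero]
      · rw [indicator_of_notMem hy]
    · have h1 := hZlap y
      rw [hFlap y, hPlapz y hgy, mul_zero, zero_sub] at h1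
      by_cases hy : y ∈ Metric.closedBall x₀ (2 * r)
      · rw [indicator_of_mem hy]
        have hy' := hy
        rw [mem_closedBall_iff_norm] at hy'
        rw [tr_deriv_one hRpos (hFlow y hy'), one_mul] at h1
        have h2 := Hf_lap_le x₀ hr hn y hy'
        have h3 : c0 n * (r ^ n)⁻¹ ≤ Δ Z y := by linarith
        calc c0 n * (r ^ n)⁻¹ * g y = g y * (c0 n * (r ^ n)⁻¹) := by ring
          _ ≤ g y * Δ Z y := mul_le_mul_of_nonneg_left h3 (hg0 y)
      · rw [indicator_of_notMem hy]
        have h2 := Hf_lap_nonpos x₀ hr (by omega : 2 ≤ n) y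
        have h3 := tr_deriv_nonneg R (F y)
        have h4 : 0 ≤ deriv (tr R) (F y) * -Δ (Hf x₀ r) y := mul_nonneg h3 (by linarith)
        exact mul_nonneg (hg0 y) (h4.trans h1)
  have hZlapc : Continuous (Δ Z) := (contDiff_lap hZs).continuous
  have hint1 : Integrable (fun y => g y * Δ Z y) :=
    (hg.continuous.mul hZlapc).integrable_of_hasCompactSupport hgc.mul_right
  have hint2 : Integrable ((Metric.closedBall x₀ (2 * r)).indicator (fun y => c0 n * (r ^ n)⁻¹ * g y)) :=
    ((continuous_const.mul hg.continuous).integrable_of_hasCompactSupport hgc.mul_left).indicator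
      Metric.isClosed_closedBall.measurableSet
  have h1 : c0 n * (r ^ n)⁻¹ * ∫ x in Metric.closedBall x₀ (2 * r), g x ≤ ∫ y, g y * Δ Z y := by
    calc c0 n * (r ^ n)⁻¹ * ∫ x in Metric.closedBall x₀ (2 * r), g x
        = ∫ x in Metric.closedBall x₀ (2 * r), c0 n * (r ^ n)⁻¹ * g x := by
          rw [integral_const_mul]
      _ = ∫ y, (Metric.closedBall x₀ (2 * r)).indicator (fun y => c0 n * (r ^ n)⁻¹ * g y) y :=
          (integral_indicator Metric.isClosed_closedBall.measurableSet).symm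
      _ ≤ _ := integral_mono hint2 hint1 hkey
  have h2 : ∫ y, g y * Δ Z y = ∫ y, Δ g y * Z y := green hg hZs hgc hZc
  have h3 : ∫ y, Δ g y * Z y ≤ κ * ∫ x in Metric.closedBall x₀ (13 * r), L x := by
    have h4 : κ * ∫ x in Metric.closedBall x₀ (13 * r), L x =
        ∫ y, (Metric.closedBall x₀ (13 * r)).indicator (fun y => κ * L y) y := by
      rw [integral_indicator Metric.isClosed_closedBall.measurableSet, integral_const_mul]
    rw [h4]
    refine integral_mono ?_ ?_ ?_
    · exact ((contDiff_lap hg).continuous.mul hZs.continuous).integrable_of_hasCompactSupport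
        hZc.mul_left
    · refine IntegrableOn.integrable_indicator ?_ Metric.isClosed_closedBall.measurableSet
      exact (continuous_const.mul hL).continuousOn.integrableOn_compact (isCompact_closedBall _ _)
    · intro y
      simp only
      by_cases hy : y ∈ Metric.closedBall x₀ (13 * r)
      · rw [indicator_of_mem hy]
        calc Δ g y * Z y ≤ L y * Z y := mul_le_mul_of_nonneg_right (hgL y) (hZn y)
          _ ≤ L y * κ := mul_le_mul_of_nonneg_left (hZκ y) (hL0 y)
          _ = κ * L y := mul_comm _ _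
      · rw [indicator_of_notMem hy]
        have hy' := hy
        rw [mem_closedBall_iff_norm] at hy'
        push Not at hy'
        rw [hZ0 y hy'.le, mul_zero]
  have h5 : c0 n * (r ^ n)⁻¹ * ∫ x in Metric.closedBall x₀ (2 * r), g x ≤
      κ * ∫ x in Metric.closedBall x₀ (13 * r), L x := by
    rw [h2] at h1; exact h1.trans h3
  have hrn : 0 < r ^ n := by positivity
  calc N * ∫ x in Metric.closedBall x₀ (2 * r), g x
      = (N * r ^ n / c0 n) * (c0 n * (r ^ n)⁻¹ * ∫ x in Metric.closedBall x₀ (2 * r), g x) := by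
        field_simp
    _ ≤ (N * r ^ n / c0 n) * (κ * ∫ x in Metric.closedBall x₀ (13 * r), L x) := by
        refine mul_le_mul_of_nonneg_left h5 ?_
        positivity
    _ = _ := by
        rw [hκ]; field_simp

end Pool.Agent.R402.HA
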