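import Pool.Agent.R402.HA.Kato

/-!
# Tools for the capacity Poincaré inequality: a convex truncation and an explicit superharmonic
function
-/

open MeasureTheory Set Filter Topology
open scoped ENNReal NNReal ContDiff Laplacian

namespace Pool.Agent.R402.HA

variable {n : ℕ}

/-- convex truncation -/
noncomputable def tr (R : ℝ) (t : ℝ) : ℝ := ∫ s in (2 * R)..t, Real.smoothTransition ((s - 2 * R) / R)

theorem trc (R : ℝ) : Continuous (fun s : ℝ => Real.smoothTransition ((s - 2 * R) / R)) :=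
  Real.smoothTransition.continuous.comp (by fun_prop)

theorem tr_deriv (R t : ℝ) :
    HasDerivAt (tr R) (Real.smoothTransition ((t - 2 * R) / R)) t :=
  ((trc R).integral_hasStrictDerivAt (2 * R) t).hasDerivAt

theorem tr_deriv_eq (R : ℝ) : deriv (tr R) = fun t => Real.smoothTransition ((t - 2 * R) / R) :=
  funext fun t => (tr_deriv R t).deriv

theorem tr_contDiff (R : ℝ) : ContDiff ℝ ((⊤ : ℕ∞) : WithTop ℕ∞) (tr R) := by
  rw [contDiff_infty_iff_deriv]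
  refine ⟨fun t => (tr_deriv R t).differentiableAt, ?_⟩
  rw [tr_deriv_eq]
  exact Real.smoothTransition.contDiff.comp (by fun_prop)

theorem tr_zero {R : ℝ} (hR : 0 < R) {t : ℝ} (ht : t ≤ 2 * R) : tr R t = 0 := by
  unfold tr
  rw [intervalIntegral.integral_symm, neg_eq_zero]
  have : ∫ s in t..(2 * R), Real.smoothTransition ((s - 2 * R) / R) = ∫ s in t..(2 * R), (0 : ℝ) := by
    apply intervalIntegral.integral_congr
    intro s hs
    rw [uIcc_of_le ht] at hs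
    exact Real.smoothTransition.zero_of_nonpos (div_nonpos_of_nonpos_of_nonneg (by linarith [hs.2]) hR.le)
  rw [this]; simp

theorem tr_nonneg {R : ℝ} (hR : 0 < R) (t : ℝ) : 0 ≤ tr R t := by
  rcases le_total t (2 * R) with h | h
  · rw [tr_zero hR h]
  · exact intervalIntegral.integral_nonneg h fun s _ => Real.smoothTransition.nonneg _

theorem tr_le {R : ℝ} (hR : 0 < R) {t : ℝ} : tr R t ≤ max t 0 := by
  rcases le_total t (2 * R) with h | h
  · rw [tr_zero hR h]; exact le_max_right _ _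
  · have : tr R t ≤ ∫ s in (2 * R)..t, (1 : ℝ) := by
      apply intervalIntegral.integral_mono_on h ((trc R).intervalIntegrable _ _)
        (by simp)
      intro s _
      exact Real.smoothTransition.le_one _
    rw [intervalIntegral.integral_const] at this
    simp only [smul_eq_mul, mul_one] at this
    exact le_trans (by linarith) (le_max_left _ _)

theorem tr_deriv_nonneg (R t : ℝ) : 0 ≤ deriv (tr R) t := by
  rw [tr_deriv_eq]; exact Real.smoothTransition.nonneg _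

theorem tr_deriv_one {R : ℝ} (hR : 0 < R) {t : ℝ} (ht : 3 * R ≤ t) : deriv (tr R) t = 1 := by
  rw [tr_deriv_eq]
  apply Real.smoothTransition.one_of_one_le
  rw [le_div_iff₀ hR]; linarith

theorem tr_conv {R : ℝ} (hR : 0 < R) (t : ℝ) : 0 ≤ deriv (deriv (tr R)) t := by
  rw [tr_deriv_eq]
  have : Monotone (fun t => Real.smoothTransition ((t - 2 * R) / R)) := by
    intro a b hab
    apply Real.smoothTransition.monotone
    gcongr
  exact this.deriv_nonneg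

/-- local chain rule -/
theorem fderiv2_comp_at (ψ : ℝ → ℝ) (F : V n → ℝ) (x : V n) (hψ : ContDiffAt ℝ 2 ψ (F x))
    (hF : ContDiff ℝ 2 F) (v w : V n) :
    fderiv ℝ (fderiv ℝ (fun y => ψ (F y))) x v w =
      deriv (deriv ψ) (F x) * (fderiv ℝ F x v * fderiv ℝ F x w) +
        deriv ψ (F x) * fderiv ℝ (fderiv ℝ F) x v w := by
  have hF1 : Differentiable ℝ F := hF.differentiable (by norm_num)
  have hF' : ContDiff ℝ 1 (fderiv ℝ F) := hF.fderiv_right (m := 1) (by norm_num)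
  have hF2 : Differentiable ℝ (fderiv ℝ F) := hF'.differentiable (by norm_num)
  have hev : ∀ᶠ t in 𝓝 (F x), ContDiffAt ℝ 2 ψ t := hψ.eventually (by simp)
  have hev2 : ∀ᶠ y in 𝓝 x, ContDiffAt ℝ 2 ψ (F y) := hF.continuous.continuousAt.eventually hev
  have h1 : (fderiv ℝ (fun y => ψ (F y))) =ᶠ[𝓝 x] fun y => deriv ψ (F y) • fderiv ℝ F y := by
    filter_upwards [hev2] with y hy
    have : DifferentiableAt ℝ ψ (F y) := hy.differentiableAt (by norm_num)
    exact (this.hasDerivAt.comp_hasFDerivAt y (hF1 y).hasFDerivAt).fderiv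
  rw [h1.fderiv_eq]
  have hψ2 : DifferentiableAt ℝ (deriv ψ) (F x) := by
    have h3 : ContDiffAt ℝ 1 (fderiv ℝ ψ) (F x) := hψ.fderiv_right (m := 1) (by norm_num)
    have h4 : deriv ψ = fun t => fderiv ℝ ψ t 1 := by
      funext t; exact (fderiv_apply_one_eq_deriv).symm
    rw [h4]
    exact (h3.differentiableAt (by norm_num)).clm_apply (differentiableAt_const _)
  have h2 : HasFDerivAt (fun y => deriv ψ (F y)) (deriv (deriv ψ) (F x) • fderiv ℝ F x) x :=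
    hψ2.hasDerivAt.comp_hasFDerivAt x (hF1 x).hasFDerivAt
  have h3 := h2.smul (hF2 x).hasFDerivAt
  have h4 : fderiv ℝ (fun y => deriv ψ (F y) • fderiv ℝ F y) x = _ := h3.fderiv
  rw [h4]
  simp [smul_eq_mul]
  ring

theorem lap_radial_at (S : ℝ → ℝ) (x₀ x : V n) (hS : ContDiffAt ℝ 2 S (‖x - x₀‖ ^ 2)) :
    Δ (fun y : V n => S (‖y - x₀‖ ^ 2)) x =
      4 * ‖x - x₀‖ ^ 2 * deriv (deriv S) (‖x - x₀‖ ^ 2) + 2 * n * deriv S (‖x - x₀‖ ^ 2) := by
  rw [lap_eq]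
  have h1 := fun i => fderiv2_comp_at S (fun y => ‖y - x₀‖ ^ 2) x hS (contDiff_sq x₀) (eb n i) (eb n i)
  rw [Finset.sum_congr rfl fun i _ => h1 i, Finset.sum_add_distrib, ← Finset.mul_sum, ← Finset.mul_sum,
    ← lap_eq (fun y => ‖y - x₀‖ ^ 2), lap_sq]
  have h2 := sum_sq_fderiv x₀ x
  have h3 : ∑ i, fderiv ℝ (fun y : V n => ‖y - x₀‖ ^ 2) x (eb n i) *
      fderiv ℝ (fun y : V n => ‖y - x₀‖ ^ 2) x (eb n i) = 4 * ‖x - x₀‖ ^ 2 := by
    rw [← h2]; exact Finset.sum_congr rfl fun i _ => by ring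
  rw [h3]; ring

/-- the explicit superharmonic function -/
noncomputable def Hf (x₀ : V n) (r : ℝ) (x : V n) : ℝ :=
  (‖x - x₀‖ ^ 2 + r ^ 2) ^ (-(((n : ℝ) - 2) / 2))

theorem Hf_contDiff (x₀ : V n) {r : ℝ} (hr : 0 < r) {k : WithTop ℕ∞} : ContDiff ℝ k (Hf x₀ r) := by
  unfold Hf
  exact ContDiff.rpow_const_of_ne ((contDiff_sq x₀).add contDiff_const) (fun x => by positivity)

theorem Hf_pos (x₀ : V n) {r : ℝ} (hr : 0 < r) (x : V n) : 0 < Hf x₀ r x := by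
  unfold Hf; positivity

theorem rpow_aux {r : ℝ} (hr : 0 < r) (hn : 2 ≤ n) :
    (r ^ 2) ^ (-(((n : ℝ) - 2) / 2)) = (r ^ (n - 2))⁻¹ := by
  rw [← Real.rpow_natCast r 2, ← Real.rpow_mul hr.le, ← Real.rpow_natCast r (n - 2),
    ← Real.rpow_neg hr.le]
  congr 1
  push_cast [Nat.cast_sub hn]
  ring

theorem Hf_le (x₀ : V n) {r : ℝ} (hr : 0 < r) (hn : 2 ≤ n) (x : V n) :
    Hf x₀ r x ≤ (r ^ (n - 2))⁻¹ := by
  rw [← rpow_aux hr hn]
  unfold Hf
  apply Real.rpow_le_rpow_of_nonpos (by positivity)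
  · nlinarith [sq_nonneg ‖x - x₀‖]
  · have : (2 : ℝ) ≤ n := by exact_mod_cast hn
    linarith

theorem Hf_lap (x₀ : V n) {r : ℝ} (hr : 0 < r) (x : V n) :
    Δ (Hf x₀ r) x = - (n * (n - 2) * r ^ 2 * (‖x - x₀‖ ^ 2 + r ^ 2) ^ (-(((n : ℝ) + 2) / 2))) := by
  set q : ℝ := ((n : ℝ) - 2) / 2 with hq
  let S : ℝ → ℝ := fun s => (s + r ^ 2) ^ (-q)
  have e : Hf x₀ r = fun y => S (‖y - x₀‖ ^ 2) := rfl
  set s := ‖x - x₀‖ ^ 2 with hs
  have hspos : 0 < s + r ^ 2 := by positivity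
  have hd : ∀ t : ℝ, 0 < t + r ^ 2 → ∀ a : ℝ, HasDerivAt (fun s => (s + r ^ 2) ^ a) (a * (t + r ^ 2) ^ (a - 1)) t := by
    intro t ht a
    have h1 : HasDerivAt (fun s : ℝ => s + r ^ 2) 1 t := (hasDerivAt_id t).add_const _
    have := h1.rpow_const (p := a) (Or.inl ht.ne')
    refine this.congr_deriv ?_
    ring
  have hev : ∀ᶠ t in 𝓝 s, 0 < t + r ^ 2 := by
    have : Continuous (fun t : ℝ => t + r ^ 2) := by fun_prop
    exact this.continuousAt.eventually (lt_mem_nhds hspos)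
  have hS2 : ContDiffAt ℝ 2 S s := by
    refine ContDiffAt.rpow_const_of_ne ?_ hspos.ne'
    fun_prop
  have h1 : deriv S s = -q * (s + r ^ 2) ^ (-q - 1) := (hd s hspos _).deriv
  have h2 : deriv (deriv S) s = -q * ((-q - 1) * (s + r ^ 2) ^ (-q - 1 - 1)) := by
    have h3 : deriv S =ᶠ[𝓝 s] fun t => -q * (t + r ^ 2) ^ (-q - 1) := by
      filter_upwards [hev] with t ht using (hd t ht _).deriv
    rw [h3.deriv_eq]
    exact ((hd s hspos _).const_mul _).deriv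
  rw [e, lap_radial_at S x₀ x hS2, ← hs, h1, h2]
  have e1 : (s + r ^ 2) ^ (-q - 1) = (s + r ^ 2) ^ (-q - 1 - 1) * (s + r ^ 2) := by
    rw [← Real.rpow_add_one hspos.ne']; congr 1; ring
  have e2 : -(((n : ℝ) + 2) / 2) = -q - 1 - 1 := by rw [hq]; ring
  rw [e1, e2]
  have : (n : ℝ) = 2 * q + 2 := by rw [hq]; ring
  rw [this]
  ring

theorem Hf_lap_nonpos (x₀ : V n) {r : ℝ} (hr : 0 < r) (hn : 2 ≤ n) (x : V n) :
    Δ (Hf x₀ r) x ≤ 0 := by
  rw [Hf_lap x₀ hr, neg_nonpos]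
  have : (2 : ℝ) ≤ n := by exact_mod_cast hn
  have : (0 : ℝ) ≤ n - 2 := by linarith
  positivity

/-- the constant -/
noncomputable def c0 (n : ℕ) : ℝ := n * (n - 2) * (5 : ℝ) ^ (-(((n : ℝ) + 2) / 2))

theorem c0_pos (hn : 3 ≤ n) : 0 < c0 n := by
  unfold c0
  have : (3 : ℝ) ≤ n := by exact_mod_cast hn
  have : (0 : ℝ) < n - 2 := by linarith
  positivity

theorem Hf_lap_le (x₀ : V n) {r : ℝ} (hr : 0 < r) (hn : 3 ≤ n) (x : V n)
    (hx : ‖x - x₀‖ ≤ 2 * r) : Δ (Hf x₀ r) x ≤ - (c0 n * (r ^ n)⁻¹) := by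
  rw [Hf_lap x₀ hr, neg_le_neg_iff]
  have hn3 : (3 : ℝ) ≤ n := by exact_mod_cast hn
  have hn2 : (0 : ℝ) < n - 2 := by linarith
  have h1 : ‖x - x₀‖ ^ 2 + r ^ 2 ≤ 5 * r ^ 2 := by
    have : ‖x - x₀‖ ^ 2 ≤ (2 * r) ^ 2 := by gcongr
    nlinarith
  have h2 : (5 * r ^ 2) ^ (-(((n : ℝ) + 2) / 2)) ≤ (‖x - x₀‖ ^ 2 + r ^ 2) ^ (-(((n : ℝ) + 2) / 2)) :=
    Real.rpow_le_rpow_of_nonpos (by positivity) h1 (by linarith)
  have h3 : (5 * r ^ 2) ^ (-(((n : ℝ) + 2) / 2)) = (5 : ℝ) ^ (-(((n : ℝ) + 2) / 2)) * (r ^ (n + 2))⁻¹ := by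
    rw [Real.mul_rpow (by norm_num) (by positivity)]
    congr 1
    rw [← Real.rpow_natCast r 2, ← Real.rpow_mul hr.le, ← Real.rpow_natCast r (n + 2),
      ← Real.rpow_neg hr.le]
    congr 1
    push_cast
    ring
  have h4 : r ^ 2 * (r ^ (n + 2))⁻¹ = (r ^ n)⁻¹ := by
    rw [pow_add]; field_simp
  calc c0 n * (r ^ n)⁻¹ = n * (n - 2) * r ^ 2 * ((5 : ℝ) ^ (-(((n : ℝ) + 2) / 2)) * (r ^ (n + 2))⁻¹) := by
        rw [← h4]; unfold c0; ring
    _ ≤ _ := by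
        rw [← h3]
        have : (0 : ℝ) ≤ n * (n - 2) * r ^ 2 := by positivity
        exact mul_le_mul_of_nonneg_left h2 this

end Pool.Agent.R402.HA
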