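import Pool.Agent.R402.HA.Stm

/-!
# Least balls and nearly optimal measures for the capacity
-/

open MeasureTheory Set Filter Topology
open scoped ENNReal NNReal ContDiff

namespace Pool.Agent.R402.HA

theorem ball_stm : BallStm := by
  intro n S hS hne
  obtain ⟨x₀, hx₀⟩ := hne
  obtain ⟨R, hR⟩ := hS.isBounded.subset_closedBall x₀
  have hR0 : 0 ≤ R := by
    have := hR hx₀
    rw [Metric.mem_closedBall, dist_self] at this
    exact this
  set T : Set (V n × ℝ) := (Metric.closedBall x₀ R ×ˢ Icc 0 R) ∩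
    ⋂ x ∈ S, {q : V n × ℝ | dist x q.1 ≤ q.2} with hT
  have hTc : IsCompact T := by
    apply ((isCompact_closedBall x₀ R).prod isCompact_Icc).inter_right
    apply isClosed_biInter
    intro x _
    exact isClosed_le (continuous_const.dist continuous_fst) continuous_snd
  have hTne : T.Nonempty := by
    refine ⟨(x₀, R), ⟨Metric.mem_closedBall_self hR0, hR0, le_rfl⟩, ?_⟩
    rw [mem_iInter₂]
    intro x hx
    exact Metric.mem_closedBall.mp (hR hx)
  obtain ⟨q, hq, hmin⟩ := hTc.exists_isMinOn hTne continuous_snd.continuousOn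
  refine ⟨q.1, q.2, ?_, ?_⟩
  · intro x hx
    rw [Metric.mem_closedBall]
    exact mem_iInter₂.mp hq.2 x hx
  · intro c' ρ' h
    rcases le_or_gt ρ' R with h1 | h1
    · have h2 : (c', ρ') ∈ T := by
        have h3 := Metric.mem_closedBall.mp (h hx₀)
        refine ⟨⟨?_, dist_nonneg.trans h3, h1⟩, ?_⟩
        · change c' ∈ Metric.closedBall x₀ R
          rw [Metric.mem_closedBall, dist_comm]
          exact h3.trans h1
        · rw [mem_iInter₂]
          intro x hx
          exact Metric.mem_closedBall.mp (h hx)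
      exact hmin h2
    · exact hq.1.2.2.trans h1.le

lemma pot_bound {n : ℕ} {c : V n} {ρ : ℝ} {E : Set (V n)} (hE : IsCompact E)
    (hEc : E ⊆ Metric.closedBall c ρ) {μ : Measure (V n)} (hμ : PotLeOne E μ) :
    μ E ≤ ENNReal.ofReal (2 * ρ) ^ (n - 2) := by
  rcases E.eq_empty_or_nonempty with h0 | ⟨x, hx⟩
  · rw [h0, measure_empty]
    exact bot_le
  have h1 : ∫⁻ _ in E, (ENNReal.ofReal (2 * ρ) ^ (n - 2))⁻¹ ∂μ ≤ 1 := by
    refine le_trans ?_ (hμ.2 x)
    refine le_trans ?_ (setLIntegral_le_lintegral E _)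
    apply setLIntegral_mono' hE.measurableSet
    intro y hy
    apply ENNReal.inv_le_inv.mpr
    apply pow_le_pow_left'
    rw [← ofReal_norm]
    apply ENNReal.ofReal_le_ofReal
    rw [← dist_eq_norm]
    have h2 := dist_triangle_right x y c
    have h3 := Metric.mem_closedBall.mp (hEc hx)
    have h4 := Metric.mem_closedBall.mp (hEc hy)
    linarith
  rw [setLIntegral_const] at h1
  generalize hb : ENNReal.ofReal (2 * ρ) ^ (n - 2) = b at h1
  have hbt : b ≠ ⊤ := by
    rw [← hb]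
    exact ENNReal.pow_ne_top ENNReal.ofReal_ne_top
  rcases eq_or_ne b 0 with hb0 | hb0
  · rw [hb0, ENNReal.inv_zero] at h1
    rcases eq_or_ne (μ E) 0 with h2 | h2
    · rw [h2]
      exact bot_le
    · rw [ENNReal.top_mul h2] at h1
      exact absurd h1 (by simp)
  · calc μ E = b * (b⁻¹ * μ E) := by
          rw [← mul_assoc, ENNReal.mul_inv_cancel hb0 hbt, one_mul]
      _ ≤ b * 1 := by gcongr
      _ = b := mul_one b

theorem cap_stm : CapStm := by
  intro n _ c ρ A hA
  have hle : cap A ≤ ENNReal.ofReal (2 * ρ) ^ (n - 2) := by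
    unfold cap capC
    refine iSup_le fun E => iSup_le fun hE => iSup_le fun hEA => iSup_le fun μ => iSup_le fun hμ => ?_
    exact pot_bound hE (hEA.trans hA) hμ
  have hlt : cap A < ⊤ := lt_of_le_of_lt hle (ENNReal.pow_lt_top ENNReal.ofReal_lt_top)
  refine ⟨hlt, ?_⟩
  rcases eq_or_ne (cap A) 0 with h0 | h0
  · refine ⟨∅, 0, isCompact_empty, empty_subset _, inferInstance, ⟨by simp, fun x => ?_⟩, ?_⟩
    · rw [lintegral_zero_measure]
      exact bot_le
    · rw [h0]
      exact bot_le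
  have h1 : cap A / 2 < cap A := ENNReal.half_lt_self h0 hlt.ne
  have h2 : cap A / 2 < ⨆ (E : Set (V n)) (_ : IsCompact E) (_ : E ⊆ A), capC E := h1
  rw [lt_iSup_iff] at h2
  obtain ⟨E, h2⟩ := h2
  rw [lt_iSup_iff] at h2
  obtain ⟨hE, h2⟩ := h2
  rw [lt_iSup_iff] at h2
  obtain ⟨hEA, h2⟩ := h2
  unfold capC at h2
  rw [lt_iSup_iff] at h2
  obtain ⟨μ, h2⟩ := h2
  rw [lt_iSup_iff] at h2
  obtain ⟨hμ, h2⟩ := h2
  have hfin : μ univ ≤ μ E := by
    have h3 : (univ : Set (V n)) = E ∪ Eᶜ := (union_compl_self E).symm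
    rw [h3]
    refine (measure_union_le _ _).trans ?_
    rw [hμ.1, add_zero]
  have hlt2 : μ univ < ⊤ :=
    lt_of_le_of_lt (hfin.trans (pot_bound hE (hEA.trans hA) hμ))
      (ENNReal.pow_lt_top ENNReal.ofReal_lt_top)
  refine ⟨E, μ, hE, hEA, ⟨hlt2⟩, hμ, ?_⟩
  have h4 : cap A / 2 ≤ μ univ := h2.le.trans (measure_mono (subset_univ _))
  calc cap A = 2 * (cap A / 2) := by
        rw [ENNReal.mul_div_cancel (by norm_num) (by norm_num)]
    _ ≤ 2 * μ univ := by gcongr

end Pool.Agent.R402.HA
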