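import Pool.Agent.R402.HA.Stm

/-!
# Chain rule for the Laplacian, radial functions, Green's identity
-/

open MeasureTheory Set Filter Topology
open scoped ENNReal NNReal ContDiff Laplacian

namespace Pool.Agent.R402.HA

variable {n : ℕ}

/-- the standard orthonormal basis -/
noncomputable abbrev eb (n : ℕ) : OrthonormalBasis (Fin n) ℝ (V n) := EuclideanSpace.basisFun (Fin n) ℝ

theorem lap_eq (F : V n → ℝ) (x : V n) :
    Δ F x = ∑ i, fderiv ℝ (fderiv ℝ F) x (eb n i) (eb n i) := by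
  rw [InnerProductSpace.laplacian_eq_iteratedFDeriv_orthonormalBasis F (eb n)]
  refine Finset.sum_congr rfl fun i _ => ?_
  rw [iteratedFDeriv_two_apply]
  rfl

theorem fderiv2_comp (ψ : ℝ → ℝ) (F : V n → ℝ) (hψ : ContDiff ℝ 2 ψ) (hF : ContDiff ℝ 2 F)
    (x v w : V n) :
    fderiv ℝ (fderiv ℝ (fun y => ψ (F y))) x v w =
      deriv (deriv ψ) (F x) * (fderiv ℝ F x v * fderiv ℝ F x w) +
        deriv ψ (F x) * fderiv ℝ (fderiv ℝ F) x v w := by
  have hψ1 : Differentiable ℝ ψ := hψ.differentiable (by norm_num)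
  have hF1 : Differentiable ℝ F := hF.differentiable (by norm_num)
  have hψ' : ContDiff ℝ 1 (deriv ψ) := by
    have : ContDiff ℝ (1 + 1) ψ := by simpa [one_add_one_eq_two] using hψ
    exact (contDiff_succ_iff_deriv.1 this).2.2
  have hψ2 : Differentiable ℝ (deriv ψ) := hψ'.differentiable (by norm_num)
  have hF' : ContDiff ℝ 1 (fderiv ℝ F) := hF.fderiv_right (m := 1) (by norm_num)
  have hF2 : Differentiable ℝ (fderiv ℝ F) := hF'.differentiable (by norm_num)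
  have h1 : (fderiv ℝ (fun y => ψ (F y))) = fun y => deriv ψ (F y) • fderiv ℝ F y := by
    funext y
    exact ((hψ1 (F y)).hasDerivAt.comp_hasFDerivAt y (hF1 y).hasFDerivAt).fderiv
  rw [h1]
  have h2 : HasFDerivAt (fun y => deriv ψ (F y)) (deriv (deriv ψ) (F x) • fderiv ℝ F x) x :=
    (hψ2 (F x)).hasDerivAt.comp_hasFDerivAt x (hF1 x).hasFDerivAt
  have h3 := h2.smul (hF2 x).hasFDerivAt
  have h4 : fderiv ℝ (fun y => deriv ψ (F y) • fderiv ℝ F y) x = _ := h3.fderiv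
  rw [h4]
  simp [smul_eq_mul]
  ring

/-- Chain rule. -/
theorem lap_comp (ψ : ℝ → ℝ) (F : V n → ℝ) (hψ : ContDiff ℝ 2 ψ) (hF : ContDiff ℝ 2 F) (x : V n) :
    Δ (fun y => ψ (F y)) x = deriv (deriv ψ) (F x) * ∑ i, (fderiv ℝ F x (eb n i)) ^ 2 +
      deriv ψ (F x) * Δ F x := by
  rw [lap_eq, lap_eq, Finset.mul_sum, Finset.mul_sum, ← Finset.sum_add_distrib]
  refine Finset.sum_congr rfl fun i _ => ?_
  rw [fderiv2_comp ψ F hψ hF]
  ring

/-- Convex functions of `F`. -/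
theorem lap_comp_ge (ψ : ℝ → ℝ) (F : V n → ℝ) (hψ : ContDiff ℝ 2 ψ) (hF : ContDiff ℝ 2 F)
    (hconv : ∀ t, 0 ≤ deriv (deriv ψ) t) (x : V n) :
    deriv ψ (F x) * Δ F x ≤ Δ (fun y => ψ (F y)) x := by
  rw [lap_comp ψ F hψ hF]
  have : 0 ≤ deriv (deriv ψ) (F x) * ∑ i, (fderiv ℝ F x (eb n i)) ^ 2 :=
    mul_nonneg (hconv _) (Finset.sum_nonneg fun i _ => sq_nonneg _)
  linarith

theorem hasFDerivAt_sq (x₀ x : V n) :
    HasFDerivAt (fun y : V n => ‖y - x₀‖ ^ 2) (2 • (innerSL ℝ (x - x₀))) x := by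
  have h := ((hasFDerivAt_id x).sub_const x₀).norm_sq
  simpa using h

theorem sum_sq_fderiv (x₀ x : V n) :
    ∑ i, (fderiv ℝ (fun y : V n => ‖y - x₀‖ ^ 2) x (eb n i)) ^ 2 = 4 * ‖x - x₀‖ ^ 2 := by
  rw [(hasFDerivAt_sq x₀ x).fderiv]
  have h := (eb n).sum_sq_norm_inner_left (x - x₀)
  have h2 : ∀ i, ((2 • (innerSL ℝ (x - x₀))) (eb n i) : ℝ) ^ 2 = 4 * ‖inner ℝ (x - x₀) (eb n i)‖ ^ 2 := by
    intro i
    rw [Real.norm_eq_abs, sq_abs]
    simp only [smul_apply, innerSL_apply_apply, nsmul_eq_mul]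
    push_cast
    ring
  rw [Finset.sum_congr rfl fun i _ => h2 i, ← Finset.mul_sum, h]

theorem lap_sq (x₀ x : V n) : Δ (fun y : V n => ‖y - x₀‖ ^ 2) x = 2 * n := by
  rw [lap_eq]
  have h1 : fderiv ℝ (fun y : V n => ‖y - x₀‖ ^ 2) = fun y => 2 • (innerSL ℝ (y - x₀)) := by
    funext y; exact (hasFDerivAt_sq x₀ y).fderiv
  rw [h1]
  have h2 : HasFDerivAt (fun y : V n => 2 • (innerSL ℝ (y - x₀))) (2 • (innerSL ℝ)) x := by
    have h3 : HasFDerivAt (fun y : V n => innerSL ℝ (y - x₀)) (innerSL ℝ) x := by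
      have := (innerSL ℝ (E := V n)).hasFDerivAt (x := x - x₀)
      exact this.comp x ((hasFDerivAt_id x).sub_const x₀)
    exact h3.const_smul 2
  rw [h2.fderiv]
  have h3 : ∀ i, ((2 • (innerSL ℝ)) (eb n i) (eb n i) : ℝ) = 2 := by
    intro i
    have : inner ℝ (eb n i) (eb n i) = (1 : ℝ) := by
      rw [real_inner_self_eq_norm_sq]; simp
    simp only [smul_apply, innerSL_apply_apply, nsmul_eq_mul, this]
    norm_num
  rw [Finset.sum_congr rfl fun i _ => h3 i]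
  simp [mul_comm]

theorem contDiff_sq (x₀ : V n) {k : WithTop ℕ∞} : ContDiff ℝ k (fun y : V n => ‖y - x₀‖ ^ 2) :=
  (contDiff_id.sub contDiff_const).norm_sq ℝ

/-- Laplacian of a radial function. -/
theorem lap_radial (S : ℝ → ℝ) (hS : ContDiff ℝ 2 S) (x₀ x : V n) :
    Δ (fun y : V n => S (‖y - x₀‖ ^ 2)) x =
      4 * ‖x - x₀‖ ^ 2 * deriv (deriv S) (‖x - x₀‖ ^ 2) + 2 * n * deriv S (‖x - x₀‖ ^ 2) := by
  rw [lap_comp S (fun y => ‖y - x₀‖ ^ 2) hS (contDiff_sq x₀), sum_sq_fderiv, lap_sq]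
  ring

theorem contDiff_lap {F : V n → ℝ} (hF : ContDiff ℝ ∞ F) : ContDiff ℝ ∞ (Δ F) := by
  have h : (Δ F) = fun x => ∑ i, fderiv ℝ (fderiv ℝ F) x (eb n i) (eb n i) := funext (lap_eq F)
  rw [h]
  have h1 : ContDiff ℝ ∞ (fderiv ℝ F) := hF.fderiv_right (by simp)
  have h2 : ContDiff ℝ ∞ (fderiv ℝ (fderiv ℝ F)) := h1.fderiv_right (by simp)
  exact ContDiff.sum fun i _ => (h2.clm_apply contDiff_const).clm_apply contDiff_const

theorem tsupport_lap (F : V n → ℝ) : tsupport (Δ F) ⊆ tsupport F := by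
  have h : (Δ F) = fun x => ∑ i, fderiv ℝ (fderiv ℝ F) x (eb n i) (eb n i) := funext (lap_eq F)
  refine closure_minimal ?_ isClosed_closure
  intro x hx
  by_contra hne
  apply hx
  have h1 : fderiv ℝ (fderiv ℝ F) x = 0 := by
    by_contra h2
    exact hne (tsupport_fderiv_subset ℝ (tsupport_fderiv_subset ℝ (subset_tsupport _ h2)))
  rw [h]
  simp [h1]

theorem hasCompactSupport_lap {F : V n → ℝ} (hF : HasCompactSupport F) :
    HasCompactSupport (Δ F) :=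
  hF.mono' ((subset_tsupport _).trans (tsupport_lap F))

/-- Green's identity. -/
theorem green {F G : V n → ℝ} (hF : ContDiff ℝ ∞ F) (hG : ContDiff ℝ ∞ G)
    (hFc : HasCompactSupport F) (hGc : HasCompactSupport G) :
    ∫ x, F x * Δ G x = ∫ x, Δ F x * G x := by
  have h := SchwartzMap.integral_mul_laplacian_right_eq_left (μ := (volume : Measure (V n)))
    (hFc.toSchwartzMap hF) (hGc.toSchwartzMap hG)
  simp only [SchwartzMap.laplacian_apply] at h
  exact h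

end Pool.Agent.R402.HA
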