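import Pool.Agent.R402.HA.Stm
import Pool.Agent.H136R3.Dom

/-!
HA-HB (helper308): the annihilating measures given by the Hahn-Banach theorem and the Riesz
representation theorem.
-/

set_option autoImplicit false
set_option linter.unusedSectionVars false

open MeasureTheory Set Filter Topology
open scoped ENNReal NNReal ContDiff Laplacian CompactlySupported

namespace Pool.Agent.R402.HA

namespace HB

section riesz

variable {X : Type} [TopologicalSpace X] [CompactSpace X] [T2Space X]
  [MeasurableSpace X] [BorelSpace X]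

/-- the real part of a complex function -/
noncomputable def reC (h : C(X, ℂ)) : C(X, ℝ) := ⟨fun x => (h x).re, by fun_prop⟩

/-- the imaginary part of a complex function -/
noncomputable def imC (h : C(X, ℂ)) : C(X, ℝ) := ⟨fun x => (h x).im, by fun_prop⟩

theorem norm_reC (h : C(X, ℂ)) : ‖reC h‖ ≤ ‖h‖ := by
  rw [ContinuousMap.norm_le _ (norm_nonneg _)]
  intro x
  exact (Complex.abs_re_le_norm _).trans (h.norm_coe_le_norm x)

theorem norm_imC (h : C(X, ℂ)) : ‖imC h‖ ≤ ‖h‖ := by
  rw [ContinuousMap.norm_le _ (norm_nonneg _)]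
  intro x
  exact (Complex.abs_im_le_norm _).trans (h.norm_coe_le_norm x)

/-- the complexification of a real functional -/
noncomputable def cplx (l : StrongDual ℝ C(X, ℝ)) : StrongDual ℂ C(X, ℂ) :=
  LinearMap.mkContinuous
    { toFun := fun h => ((l (reC h) : ℝ) : ℂ) + Complex.I * ((l (imC h) : ℝ) : ℂ)
      map_add' := by
        intro h h'
        have h1 : reC (h + h') = reC h + reC h' := rfl
        have h2 : imC (h + h') = imC h + imC h' := rfl
        rw [h1, h2, map_add, map_add]
        push_cast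
        ring
      map_smul' := by
        intro c h
        have h1 : reC (c • h) = c.re • reC h - c.im • imC h := by
          ext x
          simp [reC, imC]
        have h2 : imC (c • h) = c.re • imC h + c.im • reC h := by
          ext x
          simp [reC, imC]
        rw [h1, h2, map_sub, map_add, map_smul, map_smul, map_smul, map_smul]
        apply Complex.ext
        · simp
        · simp }
    (2 * ‖l‖) (by
      intro h
      have h1 : ‖l (reC h)‖ ≤ ‖l‖ * ‖h‖ :=
        (l.le_opNorm _).trans (mul_le_mul_of_nonneg_left (norm_reC h) (norm_nonneg _))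
      have h2 : ‖l (imC h)‖ ≤ ‖l‖ * ‖h‖ :=
        (l.le_opNorm _).trans (mul_le_mul_of_nonneg_left (norm_imC h) (norm_nonneg _))
      change ‖((l (reC h) : ℝ) : ℂ) + Complex.I * ((l (imC h) : ℝ) : ℂ)‖ ≤ _
      refine (norm_add_le _ _).trans ?_
      rw [norm_mul, Complex.norm_I, one_mul, Complex.norm_real, Complex.norm_real]
      linarith)

theorem cplx_apply (l : StrongDual ℝ C(X, ℝ)) (g : C(X, ℝ)) :
    cplx l ⟨fun x => ((g x : ℝ) : ℂ), by fun_prop⟩ = ((l g : ℝ) : ℂ) := by
  change ((l (reC _) : ℝ) : ℂ) + Complex.I * ((l (imC _) : ℝ) : ℂ) = _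
  have h1 : reC (⟨fun x => ((g x : ℝ) : ℂ), by fun_prop⟩ : C(X, ℂ)) = g := by
    ext x
    simp [reC]
  have h2 : imC (⟨fun x => ((g x : ℝ) : ℂ), by fun_prop⟩ : C(X, ℂ)) = 0 := by
    ext x
    simp [imC]
  rw [h1, h2, map_zero, Complex.ofReal_zero, mul_zero, add_zero]

/-- **Riesz representation of a bounded real functional.** -/
theorem riesz (l : StrongDual ℝ C(X, ℝ)) : ∃ m m' : Measure X, IsFiniteMeasure m ∧
    IsFiniteMeasure m' ∧ ∀ g : C(X, ℝ), l g = ∫ x, g x ∂m - ∫ x, g x ∂m' := by
  obtain ⟨m, hm, -, hdom⟩ := Pool.Agent.H136R3.exists_dominating (cplx l)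
  have hint : ∀ g : C(X, ℝ), Integrable (fun x => g x) m := fun g =>
    (g.continuous.integrable_of_hasCompactSupport (HasCompactSupport.of_compactSpace _))
  have hab : ∀ g : C(X, ℝ), |l g| ≤ ∫ x, |g x| ∂m := by
    intro g
    have h1 := hdom ⟨fun x => ((g x : ℝ) : ℂ), by fun_prop⟩
    rw [cplx_apply, Complex.norm_real] at h1
    refine h1.trans (le_of_eq (integral_congr_ae (Eventually.of_forall fun x => ?_)))
    change ‖((g x : ℝ) : ℂ)‖ = |g x|
    rw [Complex.norm_real, Real.norm_eq_abs]
  let L : C_c(X, ℝ) →ₗ[ℝ] ℝ :=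
    { toFun := fun g => ∫ x, g x ∂m - l g.toContinuousMap
      map_add' := by
        intro g g'
        have h1 : (g + g').toContinuousMap = g.toContinuousMap + g'.toContinuousMap := rfl
        rw [h1, map_add]
        have h2 : ∫ x, (g + g') x ∂m = ∫ x, g x ∂m + ∫ x, g' x ∂m :=
          integral_add (hint g.toContinuousMap) (hint g'.toContinuousMap)
        rw [h2]
        ring
      map_smul' := by
        intro c g
        have h1 : (c • g).toContinuousMap = c • g.toContinuousMap := rfl
        rw [h1, map_smul]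
        have h2 : ∫ x, (c • g) x ∂m = c * ∫ x, g x ∂m := integral_const_mul c _
        rw [h2, smul_eq_mul, RingHom.id_apply, smul_eq_mul]
        ring }
  let Λ : C_c(X, ℝ) →ₚ[ℝ] ℝ := PositiveLinearMap.mk₀ L (by
    intro g hg
    change 0 ≤ ∫ x, g x ∂m - l g.toContinuousMap
    have h1 := hab g.toContinuousMap
    have h2 : ∫ x, |g.toContinuousMap x| ∂m = ∫ x, g x ∂m :=
      integral_congr_ae (Eventually.of_forall fun x => abs_of_nonneg (hg x))
    rw [h2] at h1
    have h3 := (abs_le.1 h1).2
    linarith)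
  have hfin : IsFiniteMeasure (RealRMK.rieszMeasure Λ) := by
    have : (RealRMK.rieszMeasure Λ).Regular := inferInstance
    exact ⟨isCompact_univ.measure_lt_top⟩
  refine ⟨m, RealRMK.rieszMeasure Λ, hm, hfin, fun g => ?_⟩
  have h1 := RealRMK.integral_rieszMeasure Λ (CompactlySupportedContinuousMap.continuousMapEquiv g)
  have h2 : Λ (CompactlySupportedContinuousMap.continuousMapEquiv g) = ∫ x, g x ∂m - l g := rfl
  rw [h2] at h1
  have h3 : ∫ x, (CompactlySupportedContinuousMap.continuousMapEquiv g) x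
      ∂(RealRMK.rieszMeasure Λ) = ∫ x, g x ∂(RealRMK.rieszMeasure Λ) := rfl
  rw [h3] at h1
  linarith

end riesz

end HB

open HB

theorem hb : HBStm := by
  intro n K hK f hf hC
  have : CompactSpace K := isCompact_iff_compactSpace.1 hK
  -- the subspace of the restrictions
  let S : Submodule ℝ C(K, ℝ) :=
    { carrier := {g | ∃ h : V n → ℝ, HarmonicNear K h ∧ ∀ x : K, g x = h x}
      add_mem' := by
        rintro g g' ⟨h, ⟨U, hU, hKU, hh⟩, hg⟩ ⟨h', ⟨U', hU', hKU', hh'⟩, hg'⟩
        refine ⟨h + h', ⟨U ∩ U', hU.inter hU', subset_inter hKU hKU',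
          (hh.mono inter_subset_left).add (hh'.mono inter_subset_right)⟩, fun x => ?_⟩
        rw [ContinuousMap.add_apply, hg, hg']
        rfl
      zero_mem' := ⟨fun _ => 0, ⟨univ, isOpen_univ, subset_univ _,
        InnerProductSpace.harmonicOnNhd_const 0⟩, fun x => rfl⟩
      smul_mem' := by
        rintro c g ⟨h, ⟨U, hU, hKU, hh⟩, hg⟩
        refine ⟨c • h, ⟨U, hU, hKU, hh.const_smul⟩, fun x => ?_⟩
        rw [ContinuousMap.smul_apply, hg]
        rfl }
  let fK : C(K, ℝ) := ⟨fun x => f x, by fun_prop⟩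
  have hnot : fK ∉ closure (S : Set C(K, ℝ)) := by
    intro hmem
    apply hC
    have h1 : ∀ j : ℕ, ∃ h : V n → ℝ, HarmonicNear K h ∧
        ∀ x ∈ K, |f x - h x| < 1 / ((j : ℝ) + 1) := by
      intro j
      obtain ⟨g, ⟨h, hh, hg⟩, hgd⟩ := Metric.mem_closure_iff.1 hmem (1 / ((j : ℝ) + 1))
        (by positivity)
      refine ⟨h, hh, fun x hx => ?_⟩
      have h2 := (ContinuousMap.dist_lt_iff (by positivity)).1 hgd ⟨x, hx⟩
      rw [hg, Real.dist_eq] at h2
      exact h2
    choose F hF hFd using h1
    refine ⟨F, hF, ?_⟩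
    rw [Metric.tendstoUniformlyOn_iff]
    intro ε hε
    obtain ⟨N, hN⟩ := exists_nat_one_div_lt hε
    filter_upwards [eventually_ge_atTop N] with j hj x hx
    rw [Real.dist_eq]
    refine (hFd j x hx).trans (lt_of_le_of_lt ?_ hN)
    exact one_div_le_one_div_of_le (by positivity) (by
      have : (N : ℝ) ≤ j := by exact_mod_cast hj
      linarith)
  have hcl : closure (S : Set C(K, ℝ)) = (S.topologicalClosure : Set C(K, ℝ)) :=
    (Submodule.topologicalClosure_coe S).symm
  rw [hcl] at hnot
  obtain ⟨l, u, hl, hu⟩ := geometric_hahn_banach_closed_point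
    (S.topologicalClosure.convex) S.isClosed_topologicalClosure hnot
  have hu0 : 0 < u := by
    have := hl 0 (Submodule.zero_mem _)
    rwa [map_zero] at this
  have hl0 : ∀ g ∈ S, l g = 0 := by
    intro g hg
    by_contra hne
    have h1 := hl ((u / l g) • g)
      (Submodule.smul_mem _ _ (S.le_topologicalClosure hg))
    rw [map_smul, smul_eq_mul, div_mul_cancel₀ _ hne] at h1
    exact lt_irrefl _ h1
  have hlf : l fK ≠ 0 := (hu0.trans hu).ne'
  obtain ⟨m, m', hm, hm', hr⟩ := riesz l
  have hemb : MeasurableEmbedding (Subtype.val : K → V n) :=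
    MeasurableEmbedding.subtype_coe hK.measurableSet
  refine ⟨m.map Subtype.val, m'.map Subtype.val, inferInstance, inferInstance, ?_, ?_, ?_, ?_⟩
  · rw [hemb.map_apply, preimage_compl, Subtype.coe_preimage_self, compl_univ, measure_empty]
  · rw [hemb.map_apply, preimage_compl, Subtype.coe_preimage_self, compl_univ, measure_empty]
  · intro h hh
    rw [hemb.integral_map, hemb.integral_map]
    obtain ⟨U, hU, hKU, hhU⟩ := hh
    have hcont : ContinuousOn h K := hhU.continuousOn.mono hKU
    have h1 := hl0 ⟨fun x : K => h x, continuousOn_iff_continuous_domRestrict.1 hcont⟩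
      ⟨h, ⟨U, hU, hKU, hhU⟩, fun x => rfl⟩
    rw [hr] at h1
    exact sub_eq_zero.1 h1
  · rw [hemb.integral_map, hemb.integral_map]
    intro h1
    apply hlf
    rw [hr]
    exact sub_eq_zero.2 h1

end Pool.Agent.R402.HA
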