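import Pool.Agent.R402.HA.Chain

/-!
# Smooth version of the absolute value (Kato's inequality)
-/

open MeasureTheory Set Filter Topology
open scoped ENNReal NNReal ContDiff Laplacian

namespace Pool.Agent.R402.HA

variable {n : ℕ}

theorem two_le_inf : (2 : WithTop ℕ∞) ≤ ((⊤ : ℕ∞) : WithTop ℕ∞) := WithTop.coe_le_coe.2 le_top

/-- `√(t² + δ²) - δ` -/
noncomputable def sab (δ : ℝ) (t : ℝ) : ℝ := √(t ^ 2 + δ ^ 2) - δ

variable {δ : ℝ}

theorem sab_pos_in (hδ : 0 < δ) (t : ℝ) : 0 < t ^ 2 + δ ^ 2 := by positivity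

theorem sab_contDiff (hδ : 0 < δ) {k : WithTop ℕ∞} : ContDiff ℝ k (sab δ) := by
  unfold sab
  refine ContDiff.sub ?_ contDiff_const
  exact ContDiff.sqrt (by fun_prop) (fun t => (sab_pos_in hδ t).ne')

theorem sab_zero (hδ : 0 < δ) : sab δ 0 = 0 := by
  unfold sab
  rw [zero_pow two_ne_zero, zero_add, Real.sqrt_sq hδ.le, sub_self]

theorem sab_nonneg (_ : 0 < δ) (t : ℝ) : 0 ≤ sab δ t := by
  unfold sab
  have : δ ≤ √(t ^ 2 + δ ^ 2) := Real.le_sqrt_of_sq_le (by nlinarith [sq_nonneg t])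
  linarith

theorem abs_le_sab (t : ℝ) : |t| ≤ sab δ t + δ := by
  unfold sab
  have : |t| ≤ √(t ^ 2 + δ ^ 2) := Real.abs_le_sqrt (by nlinarith [sq_nonneg δ])
  linarith

theorem sab_deriv (hδ : 0 < δ) (t : ℝ) : HasDerivAt (sab δ) (t / √(t ^ 2 + δ ^ 2)) t := by
  unfold sab
  have h1 : HasDerivAt (fun t : ℝ => t ^ 2 + δ ^ 2) (2 * t) t := by
    simpa using (hasDerivAt_pow 2 t).add_const (δ ^ 2)
  have h2 := (h1.sqrt (sab_pos_in hδ t).ne').sub_const δ
  refine h2.congr_deriv ?_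
  have := Real.sqrt_pos.2 (sab_pos_in hδ t)
  field_simp

theorem sab_deriv2 (hδ : 0 < δ) (t : ℝ) :
    HasDerivAt (fun t => t / √(t ^ 2 + δ ^ 2)) (δ ^ 2 / (√(t ^ 2 + δ ^ 2)) ^ 3) t := by
  have h0 := Real.sqrt_pos.2 (sab_pos_in hδ t)
  have h1 : HasDerivAt (fun t : ℝ => t ^ 2 + δ ^ 2) (2 * t) t := by
    simpa using (hasDerivAt_pow 2 t).add_const (δ ^ 2)
  have h2 := h1.sqrt (sab_pos_in hδ t).ne'
  have h3 := (hasDerivAt_id t).div h2 h0.ne'
  refine h3.congr_deriv ?_
  have hs : √(t ^ 2 + δ ^ 2) ^ 2 = t ^ 2 + δ ^ 2 := Real.sq_sqrt (sab_pos_in hδ t).le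
  simp only [id]
  field_simp
  rw [hs]
  ring

theorem sab_deriv_abs (hδ : 0 < δ) (t : ℝ) : |deriv (sab δ) t| ≤ 1 := by
  rw [(sab_deriv hδ t).deriv, abs_div, abs_of_pos (Real.sqrt_pos.2 (sab_pos_in hδ t))]
  rw [div_le_one (Real.sqrt_pos.2 (sab_pos_in hδ t))]
  exact Real.abs_le_sqrt (by nlinarith [sq_nonneg δ])

theorem sab_conv (hδ : 0 < δ) (t : ℝ) : 0 ≤ deriv (deriv (sab δ)) t := by
  have : deriv (sab δ) = fun t => t / √(t ^ 2 + δ ^ 2) := funext fun t => (sab_deriv hδ t).deriv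
  rw [this, (sab_deriv2 hδ t).deriv]
  positivity

theorem int_lap_zero {g : V n → ℝ} (hg : ContDiff ℝ ∞ g) (hgc : HasCompactSupport g) :
    ∫ x, Δ g x = 0 := by
  obtain ⟨R, hR⟩ : ∃ R, tsupport g ⊆ Metric.ball (0 : V n) R := by
    obtain ⟨R, hR⟩ := hgc.isCompact.isBounded.subset_ball 0
    exact ⟨R, hR⟩
  let b : ContDiffBump (0 : V n) := ⟨|R| + 1, |R| + 2, by positivity, by linarith⟩
  have h := green (n := n) (b.contDiff (n := ⊤)) hg b.hasCompactSupport hgc
  have h1 : ∀ x ∈ Metric.ball (0 : V n) (|R| + 1), b x = 1 := fun x hx =>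
    b.one_of_mem_closedBall (Metric.ball_subset_closedBall hx)
  have h2 : ∀ x, b x * Δ g x = Δ g x := by
    intro x
    by_cases hx : x ∈ tsupport g
    · have := hR hx
      rw [h1 x (Metric.ball_subset_ball (by linarith [le_abs_self R]) this), one_mul]
    · have : Δ g x = 0 := by
        by_contra hne
        exact hx (tsupport_lap g (subset_tsupport _ hne))
      rw [this, mul_zero]
  have h3 : ∀ x, Δ (fun x => b x) x * g x = 0 := by
    intro x
    by_cases hx : x ∈ tsupport g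
    · have hxx : x ∈ Metric.ball (0 : V n) (|R| + 1) :=
        Metric.ball_subset_ball (by linarith [le_abs_self R]) (hR hx)
      have : (fun x => b x) =ᶠ[𝓝 x] fun _ => (1 : ℝ) := by
        filter_upwards [Metric.isOpen_ball.mem_nhds hxx] with y hy using h1 y hy
      have h4 := (InnerProductSpace.laplacian_congr_nhds this).eq_of_nhds
      rw [h4]
      simp
    · rw [image_eq_zero_of_notMem_tsupport hx, mul_zero]
  have h5 : ∫ x, b x * Δ g x = ∫ x, Δ g x := by simp_rw [h2]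
  rw [← h5, h]
  rw [integral_congr_ae (Eventually.of_forall h3)]
  simp

theorem kato : KatoStm := by
  intro n u hu huc δ hδ
  have hg : ContDiff ℝ ∞ (fun x => sab δ (u x)) := (sab_contDiff hδ).comp hu
  have hgc : HasCompactSupport (fun x => sab δ (u x)) := huc.comp_left (sab_zero hδ)
  refine ⟨fun x => sab δ (u x), hg, hgc, fun x => sab_nonneg hδ _, fun x => abs_le_sab _, ?_, ?_, ?_⟩
  · intro x hx
    simp only [hx, sab_zero hδ]
  · intro x
    have h1 := lap_comp_ge (sab δ) u (sab_contDiff hδ) (hu.of_le two_le_inf) (sab_conv hδ) x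
    have h2 : -|Δ u x| ≤ deriv (sab δ) (u x) * Δ u x := by
      have h3 : |deriv (sab δ) (u x) * Δ u x| ≤ |Δ u x| := by
        rw [abs_mul]
        calc _ ≤ 1 * |Δ u x| := by
              gcongr
              exact sab_deriv_abs hδ _
          _ = _ := one_mul _
      exact (abs_le.1 h3).1
    linarith
  · rw [integral_add, int_lap_zero hg hgc, zero_add]
    · exact (contDiff_lap hg).continuous.integrable_of_hasCompactSupport (hasCompactSupport_lap hgc)
    · exact ((contDiff_lap hu).continuous.integrable_of_hasCompactSupport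
        (hasCompactSupport_lap huc)).abs

end Pool.Agent.R402.HA
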