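import Pool.Agent.R402.HA.Stm

/-! HA-KER (helper711): truncated Newtonian kernels. -/

open MeasureTheory Set Filter Topology
open scoped ENNReal NNReal ContDiff Laplacian

namespace Pool.Agent.R402.HA.Ker

open InnerProductSpace

/-- the cut-off -/
noncomputable def T (ε s : ℝ) : ℝ := Real.smoothTransition (2 * s / ε ^ 2 - 1)

theorem T_contDiff (ε : ℝ) : ContDiff ℝ ∞ (T ε) := by
  unfold T
  exact Real.smoothTransition.contDiff.comp (by fun_prop)

theorem T_mono {ε : ℝ} (hε : 0 < ε) : Monotone (T ε) := by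
  intro a b hab
  apply Real.smoothTransition.monotone
  gcongr

theorem T_zero {ε s : ℝ} (hε : 0 < ε) (h : s ≤ ε ^ 2 / 2) : T ε s = 0 := by
  apply Real.smoothTransition.zero_of_nonpos
  have h1 : 2 * s / ε ^ 2 ≤ 1 := by
    rw [div_le_one (by positivity)]
    linarith
  linarith

theorem T_one {ε s : ℝ} (hε : 0 < ε) (h : ε ^ 2 ≤ s) : T ε s = 1 := by
  apply Real.smoothTransition.one_of_one_le
  have h1 : 2 ≤ 2 * s / ε ^ 2 := by
    rw [le_div_iff₀ (by positivity)]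
    linarith
  linarith

theorem T_nonneg (ε s : ℝ) : 0 ≤ T ε s := Real.smoothTransition.nonneg _

theorem T_le_one (ε s : ℝ) : T ε s ≤ 1 := Real.smoothTransition.le_one _

/-- minus the derivative of the profile -/
noncomputable def D (p ε s : ℝ) : ℝ := p * T ε s * s ^ (-p - 1)

theorem D_contDiff (p : ℝ) {ε : ℝ} (hε : 0 < ε) : ContDiff ℝ ∞ (D p ε) := by
  rw [contDiff_iff_contDiffAt]
  intro s
  rcases lt_or_ge s (ε ^ 2 / 2) with h | h
  · have : D p ε =ᶠ[𝓝 s] fun _ => 0 := by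
      filter_upwards [Iio_mem_nhds h] with t ht
      unfold D
      rw [T_zero hε (le_of_lt ht)]
      ring
    exact contDiffAt_const.congr_of_eventuallyEq this
  · have hs : s ≠ 0 := by
      have : 0 < ε ^ 2 / 2 := by positivity
      linarith
    unfold D
    exact (contDiffAt_const.mul (T_contDiff ε).contDiffAt).mul (Real.contDiffAt_rpow_const_of_ne hs)

theorem D_nonneg {p ε : ℝ} (hp : 0 ≤ p) (hε : 0 < ε) (s : ℝ) : 0 ≤ D p ε s := by
  rcases lt_or_ge s (ε ^ 2 / 2) with h | h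
  · unfold D
    rw [T_zero hε (le_of_lt h)]
    simp
  · have hs : 0 < s := by
      have : 0 < ε ^ 2 / 2 := by positivity
      linarith
    unfold D
    have := T_nonneg ε s
    positivity

theorem D_hasDerivAt (p : ℝ) (ε : ℝ) {s : ℝ} (hs : 0 < s) :
    HasDerivAt (D p ε) (p * deriv (T ε) s * s ^ (-p - 1) +
      p * T ε s * ((-p - 1) * s ^ (-p - 2))) s := by
  have h1 : HasDerivAt (T ε) (deriv (T ε) s) s :=
    ((T_contDiff ε).differentiable (by simp) s).hasDerivAt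
  have h2 : HasDerivAt (fun t : ℝ => t ^ (-p - 1)) ((-p - 1) * s ^ (-p - 1 - 1)) s :=
    Real.hasDerivAt_rpow_const (Or.inl hs.ne')
  have h3 := (h1.const_mul p).mul h2
  have e : (-p - 1 - 1 : ℝ) = -p - 2 := by ring
  rw [e] at h3
  exact h3

/-- the profile -/
noncomputable def S (p ε s : ℝ) : ℝ := (ε ^ 2) ^ (-p) - ∫ t in (ε ^ 2)..s, D p ε t

theorem S_hasDerivAt (p : ℝ) {ε : ℝ} (hε : 0 < ε) (s : ℝ) :
    HasDerivAt (S p ε) (-D p ε s) s := by
  have hc : Continuous (D p ε) := (D_contDiff p hε).continuous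
  have h1 := intervalIntegral.integral_hasDerivAt_right (hc.intervalIntegrable (ε ^ 2) s)
    (hc.stronglyMeasurableAtFilter _ _) hc.continuousAt
  exact h1.const_sub _

theorem S_deriv (p : ℝ) {ε : ℝ} (hε : 0 < ε) : deriv (S p ε) = fun s => -D p ε s := by
  ext s
  exact (S_hasDerivAt p hε s).deriv

theorem S_contDiff (p : ℝ) {ε : ℝ} (hε : 0 < ε) : ContDiff ℝ ∞ (S p ε) := by
  rw [contDiff_infty_iff_deriv]
  refine ⟨fun s => (S_hasDerivAt p hε s).differentiableAt, ?_⟩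
  rw [S_deriv p hε]
  exact (D_contDiff p hε).neg

theorem S_anti {p ε : ℝ} (hp : 0 ≤ p) (hε : 0 < ε) : Antitone (S p ε) := by
  apply antitone_of_deriv_nonpos (fun s => (S_hasDerivAt p hε s).differentiableAt)
  intro s
  rw [S_deriv p hε]
  have := D_nonneg hp hε s
  linarith

theorem S_at (p ε : ℝ) : S p ε (ε ^ 2) = (ε ^ 2) ^ (-p) := by
  unfold S
  rw [intervalIntegral.integral_same, sub_zero]

/-- the comparison function -/
noncomputable def F (p ε s : ℝ) : ℝ := s ^ (-p) - S p ε s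

theorem F_hasDerivAt (p : ℝ) {ε : ℝ} (hε : 0 < ε) {s : ℝ} (hs : 0 < s) :
    HasDerivAt (F p ε) (-(p * (1 - T ε s) * s ^ (-p - 1))) s := by
  have h1 : HasDerivAt (fun t : ℝ => t ^ (-p)) ((-p) * s ^ (-p - 1)) s :=
    Real.hasDerivAt_rpow_const (Or.inl hs.ne')
  have h2 := h1.sub (S_hasDerivAt p hε s)
  have e : -p * s ^ (-p - 1) - -D p ε s = -(p * (1 - T ε s) * s ^ (-p - 1)) := by
    unfold D
    ring
  rw [e] at h2
  exact h2

theorem F_at (p ε : ℝ) : F p ε (ε ^ 2) = 0 := by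
  unfold F
  rw [S_at, sub_self]

theorem S_le {p ε : ℝ} (hp : 0 ≤ p) (hε : 0 < ε) {s : ℝ} (hs : 0 < s) (h : s ≤ ε ^ 2) :
    S p ε s ≤ s ^ (-p) := by
  have hanti : AntitoneOn (F p ε) (Ioi 0) := by
    apply antitoneOn_of_deriv_nonpos (convex_Ioi 0)
    · intro t ht
      exact (F_hasDerivAt p hε ht).continuousAt.continuousWithinAt
    · intro t ht
      rw [interior_Ioi] at ht
      exact (F_hasDerivAt p hε ht).differentiableAt.differentiableWithinAt
    · intro t ht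
      rw [interior_Ioi] at ht
      rw [(F_hasDerivAt p hε ht).deriv]
      have h1 : 0 ≤ 1 - T ε t := by linarith [T_le_one ε t]
      have h2 : 0 ≤ t ^ (-p - 1) := Real.rpow_nonneg (le_of_lt ht) _
      have := mul_nonneg (mul_nonneg hp h1) h2
      linarith
  have h1 := hanti (mem_Ioi.2 hs) (mem_Ioi.2 (by positivity : (0 : ℝ) < ε ^ 2)) h
  rw [F_at] at h1
  unfold F at h1
  linarith

theorem S_eq (p : ℝ) {ε : ℝ} (hε : 0 < ε) {s : ℝ} (h : ε ^ 2 ≤ s) : S p ε s = s ^ (-p) := by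
  have hpos : ∀ t ∈ Ici (ε ^ 2), 0 < t := fun t ht => lt_of_lt_of_le (by positivity) ht
  have hd : ∀ t ∈ Ioi (ε ^ 2), deriv (F p ε) t = 0 := by
    intro t ht
    rw [(F_hasDerivAt p hε (hpos t (mem_Ici.2 (le_of_lt (mem_Ioi.1 ht))))).deriv, T_one hε (le_of_lt ht)]
    ring
  have hc : ContinuousOn (F p ε) (Ici (ε ^ 2)) := fun t ht =>
    (F_hasDerivAt p hε (hpos t ht)).continuousAt.continuousWithinAt
  have hdiff : DifferentiableOn ℝ (F p ε) (interior (Ici (ε ^ 2))) := by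
    intro t ht
    rw [interior_Ici] at ht
    exact (F_hasDerivAt p hε (hpos t (mem_Ici.2 (le_of_lt (mem_Ioi.1 ht))))).differentiableAt.differentiableWithinAt
  have h1 : AntitoneOn (F p ε) (Ici (ε ^ 2)) := by
    apply antitoneOn_of_deriv_nonpos (convex_Ici _) hc hdiff
    intro t ht
    rw [interior_Ici] at ht
    rw [hd t ht]
  have h2 : MonotoneOn (F p ε) (Ici (ε ^ 2)) := by
    apply monotoneOn_of_deriv_nonneg (convex_Ici _) hc hdiff
    intro t ht
    rw [interior_Ici] at ht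
    rw [hd t ht]
  have h3 := h1 (self_mem_Ici) (mem_Ici.2 h) h
  have h4 := h2 (self_mem_Ici) (mem_Ici.2 h) h
  rw [F_at] at h3 h4
  unfold F at h3 h4
  linarith

theorem S_pos {p ε : ℝ} (hp : 0 ≤ p) (hε : 0 < ε) (s : ℝ) : 0 < S p ε s := by
  rcases le_total s (ε ^ 2) with h | h
  · have h1 := S_anti hp hε h
    rw [S_at] at h1
    have : 0 < (ε ^ 2) ^ (-p) := Real.rpow_pos_of_pos (by positivity) _
    linarith
  · rw [S_eq p hε h]
    exact Real.rpow_pos_of_pos (lt_of_lt_of_le (by positivity) h) _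

/-! ### the Laplacian of a radial function -/

theorem fderiv_radial {n : ℕ} {s : ℝ → ℝ} (hs : ContDiff ℝ ∞ s) (x : V n) :
    HasFDerivAt (fun x : V n => s (‖x‖ ^ 2)) ((deriv s (‖x‖ ^ 2)) • (2 • innerSL ℝ x)) x := by
  have h1 := (hasStrictFDerivAt_norm_sq x).hasFDerivAt
  have h2 : HasDerivAt s (deriv s (‖x‖ ^ 2)) (‖x‖ ^ 2) :=
    (hs.differentiable (by simp) _).hasDerivAt
  exact h2.comp_hasFDerivAt x h1

theorem lap_radial {n : ℕ} {s : ℝ → ℝ} (hs : ContDiff ℝ ∞ s) (x : V n) :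
    Δ (fun x : V n => s (‖x‖ ^ 2)) x =
      4 * ‖x‖ ^ 2 * deriv (deriv s) (‖x‖ ^ 2) + 2 * n * deriv s (‖x‖ ^ 2) := by
  have hs' : ContDiff ℝ ∞ (deriv s) := (contDiff_infty_iff_deriv.1 hs).2
  rw [laplacian_eq_iteratedFDeriv_orthonormalBasis _ (EuclideanSpace.basisFun (Fin n) ℝ)]
  simp only [iteratedFDeriv_two_apply]
  have hf : fderiv ℝ (fun x : V n => s (‖x‖ ^ 2)) =
      fun x => (deriv s (‖x‖ ^ 2)) • (2 • innerSL ℝ x) := by
    ext1 y
    exact (fderiv_radial hs y).fderiv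
  rw [hf]
  have hterm : ∀ i : Fin n, (fderiv ℝ (fun y : V n => (deriv s (‖y‖ ^ 2)) •
      (2 • innerSL ℝ y)) x) (![EuclideanSpace.basisFun (Fin n) ℝ i,
        EuclideanSpace.basisFun (Fin n) ℝ i] 0) (![EuclideanSpace.basisFun (Fin n) ℝ i,
        EuclideanSpace.basisFun (Fin n) ℝ i] 1) =
      4 * deriv (deriv s) (‖x‖ ^ 2) * (inner ℝ (EuclideanSpace.basisFun (Fin n) ℝ i) x) ^ 2 +
        2 * deriv s (‖x‖ ^ 2) := by
    intro i
    set e := EuclideanSpace.basisFun (Fin n) ℝ i with he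
    have hnorm : ‖e‖ = 1 := (EuclideanSpace.basisFun (Fin n) ℝ).norm_eq_one i
    have h1 := fderiv_radial hs' x
    have h2 : HasFDerivAt (fun y : V n => (2 : ℕ) • innerSL ℝ y) ((2 : ℕ) • (innerSL ℝ : V n →L[ℝ] V n →L[ℝ] ℝ)) x :=
      ((2 : ℕ) • (innerSL ℝ : V n →L[ℝ] V n →L[ℝ] ℝ)).hasFDerivAt
    have h3 := h1.smul h2
    have h4 := h3.fderiv
    have h5 : (fderiv ℝ (fun y : V n => (deriv s (‖y‖ ^ 2)) • ((2 : ℕ) • innerSL ℝ y)) x) =
      _ := h4
    simp only [Matrix.cons_val_zero, Matrix.cons_val_one]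
    rw [h5]
    have h6 : inner ℝ e e = (1 : ℝ) := by
      rw [real_inner_self_eq_norm_sq, hnorm, one_pow]
    simp only [_root_.add_apply, _root_.smul_apply,
      ContinuousLinearMap.smulRight_apply, innerSL_apply_apply, smul_eq_mul, nsmul_eq_mul]
    change (deriv s (‖x‖ ^ 2) * (((2 : ℕ) : ℝ) * inner ℝ e e) +
      deriv (deriv s) (‖x‖ ^ 2) * (((2 : ℕ) : ℝ) * inner ℝ x e) *
        (((2 : ℕ) : ℝ) * inner ℝ x e) = _)
    rw [h6, real_inner_comm e x]
    push_cast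
    ring
  rw [Finset.sum_congr rfl (fun i _ => hterm i), Finset.sum_add_distrib, ← Finset.mul_sum,
    OrthonormalBasis.sum_sq_inner_right, Finset.sum_const, Finset.card_univ, Fintype.card_fin,
    nsmul_eq_mul]
  ring

/-- the kernel -/
noncomputable def G (n : ℕ) (ε : ℝ) (x : V n) : ℝ := S (((n : ℝ) - 2) / 2) ε (‖x‖ ^ 2)

theorem lap_G {n : ℕ} (hn : 3 ≤ n) {ε : ℝ} (hε : 0 < ε) (x : V n) :
    Δ (G n ε) x = if x = 0 then 0 else
      -(2 * ((n : ℝ) - 2) * deriv (T ε) (‖x‖ ^ 2) * (‖x‖ ^ 2) ^ (-(((n : ℝ) - 2) / 2))) := by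
  have hΔ : Δ (G n ε) x = 4 * ‖x‖ ^ 2 * deriv (deriv (S (((n : ℝ) - 2) / 2) ε)) (‖x‖ ^ 2) +
      2 * n * deriv (S (((n : ℝ) - 2) / 2) ε) (‖x‖ ^ 2) := lap_radial (S_contDiff _ hε) x
  rw [hΔ, S_deriv _ hε]
  split_ifs with h
  · subst h
    have : D (((n : ℝ) - 2) / 2) ε 0 = 0 := by
      unfold D
      rw [T_zero hε (by positivity)]
      ring
    simp [this]
  · have hs : 0 < ‖x‖ ^ 2 := by
      have := norm_pos_iff.2 h
      positivity
    have h1 := (D_hasDerivAt (((n : ℝ) - 2) / 2) ε hs).neg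
    have h2 : deriv (fun s => -D (((n : ℝ) - 2) / 2) ε s) (‖x‖ ^ 2) = _ := h1.deriv
    rw [h2]
    set s := ‖x‖ ^ 2 with hsdef
    set p := ((n : ℝ) - 2) / 2 with hp
    have e1 : s ^ (-p) = s * s ^ (-p - 1) := by
      have : (-p : ℝ) = 1 + (-p - 1) := by ring
      nth_rewrite 1 [this]
      rw [Real.rpow_add hs, Real.rpow_one]
    have e2 : s ^ (-p - 1) = s * s ^ (-p - 2) := by
      have : (-p - 1 : ℝ) = 1 + (-p - 2) := by ring
      nth_rewrite 1 [this]
      rw [Real.rpow_add hs, Real.rpow_one]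
    have e3 : (n : ℝ) = 2 * p + 2 := by rw [hp]; ring
    have e4 : D p ε s = p * T ε s * s ^ (-p - 1) := rfl
    beta_reduce
    rw [e4, e1, e2, e3]
    ring

theorem T_deriv_nonneg {ε : ℝ} (hε : 0 < ε) (s : ℝ) : 0 ≤ deriv (T ε) s :=
  (T_mono hε).deriv_nonneg

theorem T_deriv_zero {ε s : ℝ} (hε : 0 < ε) (h : ε ^ 2 < s) : deriv (T ε) s = 0 := by
  have : T ε =ᶠ[𝓝 s] fun _ => 1 := by
    filter_upwards [Ioi_mem_nhds h] with t ht
    exact T_one hε (le_of_lt ht)
  rw [this.deriv_eq, deriv_const]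

theorem exists_T_deriv {ε : ℝ} (hε : 0 < ε) : ∃ s ∈ Ioo 0 (ε ^ 2), deriv (T ε) s ≠ 0 := by
  obtain ⟨c, hc, h⟩ := exists_deriv_eq_slope (T ε) (by positivity : (0 : ℝ) < ε ^ 2)
    (T_contDiff ε).continuous.continuousOn
    (fun t _ => ((T_contDiff ε).differentiable (by simp) t).differentiableWithinAt)
  refine ⟨c, hc, ?_⟩
  rw [h, T_one hε le_rfl, T_zero hε (by positivity)]
  have : 0 < ε ^ 2 := by positivity
  rw [sub_zero, sub_zero]
  positivity

theorem rpow_norm {n : ℕ} (hn : 3 ≤ n) {r : ℝ} (hr : 0 ≤ r) :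
    (r ^ 2) ^ (-(((n : ℝ) - 2) / 2)) = (r ^ (n - 2))⁻¹ := by
  have h1 : (r ^ 2 : ℝ) = r ^ (2 : ℝ) := by norm_cast
  rw [h1, ← Real.rpow_mul hr]
  have h2 : (2 : ℝ) * (-(((n : ℝ) - 2) / 2)) = -((n - 2 : ℕ) : ℝ) := by
    rw [Nat.cast_sub (by omega)]
    push_cast
    ring
  rw [h2, Real.rpow_neg hr, Real.rpow_natCast]

theorem ker : KerStm := by
  intro n hn ε hε
  have hp : 0 ≤ ((n : ℝ) - 2) / 2 := by
    have : (3 : ℝ) ≤ n := by exact_mod_cast hn
    linarith
  have hp' : 0 < (n : ℝ) - 2 := by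
    have : (3 : ℝ) ≤ n := by exact_mod_cast hn
    linarith
  have hG : ContDiff ℝ ∞ (G n ε) := (S_contDiff _ hε).comp (contDiff_norm_sq ℝ)
  have hle : ∀ x, Δ (G n ε) x ≤ 0 := by
    intro x
    rw [lap_G hn hε]
    split_ifs with h
    · exact le_rfl
    · have h1 := T_deriv_nonneg hε (‖x‖ ^ 2)
      have h2 : 0 ≤ (‖x‖ ^ 2) ^ (-(((n : ℝ) - 2) / 2)) := Real.rpow_nonneg (by positivity) _
      have := mul_nonneg (mul_nonneg (mul_nonneg (by norm_num : (0 : ℝ) ≤ 2) hp'.le) h1) h2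
      linarith
  have hzero : ∀ x, ε < ‖x‖ → Δ (G n ε) x = 0 := by
    intro x hx
    rw [lap_G hn hε]
    split_ifs with h
    · rfl
    · rw [T_deriv_zero hε (by gcongr)]
      ring
  refine ⟨G n ε, hG, fun x => S_pos hp hε _, ?_, ?_, ?_, hle, hzero, ?_⟩
  · intro x hx
    rw [← rpow_norm hn (norm_nonneg x)]
    have hs : 0 < ‖x‖ ^ 2 := by
      have := norm_pos_iff.2 hx
      positivity
    rcases le_total (‖x‖ ^ 2) (ε ^ 2) with h | h
    · exact S_le hp hε hs h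
    · exact (S_eq _ hε h).le
  · intro x hx
    rw [← rpow_norm hn (norm_nonneg x)]
    exact S_eq _ hε (by gcongr)
  · intro x y hxy
    exact S_anti hp hε (by gcongr)
  · have hcont : Continuous (fun x => -Δ (G n ε) x) := by
      have h1 : Continuous (Δ (G n ε)) := by
        rw [laplacian_eq_iteratedFDeriv_orthonormalBasis _ (EuclideanSpace.basisFun (Fin n) ℝ)]
        apply continuous_finsetSum
        intro i _
        have h2 : Continuous (iteratedFDeriv ℝ 2 (G n ε)) :=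
          hG.continuous_iteratedFDeriv (WithTop.coe_le_coe.2 le_top)
        exact (ContinuousMultilinearMap.apply ℝ (fun _ : Fin 2 => V n) ℝ _).continuous.comp h2
      exact h1.neg
    have hcs : HasCompactSupport (fun x => -Δ (G n ε) x) := by
      apply HasCompactSupport.intro (isCompact_closedBall (0 : V n) ε)
      intro x hx
      rw [mem_closedBall_zero_iff, not_le] at hx
      rw [hzero x hx, neg_zero]
    obtain ⟨s, hs, hds⟩ := exists_T_deriv hε
    have hpos := hcont.integral_pos_of_hasCompactSupport_nonneg_nonzero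
      (x := EuclideanSpace.single (⟨0, by omega⟩ : Fin n) (Real.sqrt s)) (μ := volume) hcs
      (fun x => by
        show (0 : ℝ) ≤ -Δ (G n ε) x
        linarith [hle x]) (by
        have hn1 : ‖EuclideanSpace.single (⟨0, by omega⟩ : Fin n) (Real.sqrt s)‖ = Real.sqrt s := by
          rw [PiLp.norm_single, Real.norm_eq_abs, abs_of_nonneg (Real.sqrt_nonneg s)]
        have hne : EuclideanSpace.single (⟨0, by omega⟩ : Fin n) (Real.sqrt s) ≠ 0 := by
          rw [← norm_ne_zero_iff, hn1]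
          exact (Real.sqrt_pos.2 hs.1).ne'
        rw [lap_G hn hε, if_neg hne, hn1, Real.sq_sqrt hs.1.le, neg_neg]
        have h3 : s ^ (-(((n : ℝ) - 2) / 2)) ≠ 0 := (Real.rpow_pos_of_pos hs.1 _).ne'
        exact mul_ne_zero (mul_ne_zero (mul_ne_zero two_ne_zero hp'.ne') hds) h3)
    rw [integral_neg] at hpos
    linarith

end Pool.Agent.R402.HA.Ker
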