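import Pool.Agent.R402.HA.Stm

/-! # Module HA-PU: a smooth partition of unity on a lattice, with bounded overlap -/

open MeasureTheory Set Filter Topology
open scoped ENNReal NNReal ContDiff Laplacian

namespace Pool.Agent.R402.HA.PU

/-- One-dimensional bump with integer translates summing to one. -/
noncomputable def b (t : ℝ) : ℝ := Real.smoothTransition (t + 1) - Real.smoothTransition t

lemma b_contDiff : ContDiff ℝ ∞ b := by
  unfold b
  exact (Real.smoothTransition.contDiff.comp (contDiff_id.add contDiff_const)).sub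
    Real.smoothTransition.contDiff

lemma b_abs {t : ℝ} (h : b t ≠ 0) : |t| < 1 := by
  by_contra hge
  push Not at hge
  apply h
  rcases le_abs'.1 hge with h1 | h1
  · unfold b
    rw [Real.smoothTransition.zero_of_nonpos (by linarith),
      Real.smoothTransition.zero_of_nonpos (by linarith), sub_zero]
  · unfold b
    rw [Real.smoothTransition.one_of_one_le (by linarith),
      Real.smoothTransition.one_of_one_le (by linarith), sub_self]

/-- The product bump. -/
noncomputable def ψ (n : ℕ) (x : V n) : ℝ := ∏ i, b (x i * √n)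

lemma ψ_contDiff (n : ℕ) : ContDiff ℝ ∞ (ψ n) := by
  unfold ψ
  apply contDiff_prod
  intro i _
  apply b_contDiff.comp
  exact ((EuclideanSpace.proj i : V n →L[ℝ] ℝ).contDiff).mul contDiff_const

lemma ψ_tsupport (n : ℕ) (hn : 0 < n) : tsupport (ψ n) ⊆ Metric.closedBall 0 1 := by
  apply closure_minimal _ Metric.isClosed_closedBall
  intro x hx
  rw [Function.mem_support] at hx
  have hx' : ∀ i, b (x i * √n) ≠ 0 := fun i => (Finset.prod_ne_zero_iff.1 hx) i (Finset.mem_univ i)
  rw [mem_closedBall_zero_iff]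
  have hn' : (0 : ℝ) < n := by exact_mod_cast hn
  have h1 : ∀ i, x i ^ 2 ≤ 1 / n := by
    intro i
    have h2 := b_abs (hx' i)
    have h3 : (x i * √n) ^ 2 ≤ 1 := by
      rw [sq_le_one_iff_abs_le_one]; exact h2.le
    rw [mul_pow, Real.sq_sqrt hn'.le] at h3
    rw [le_div_iff₀ hn']
    exact h3
  have h4 : ‖x‖ ^ 2 ≤ 1 := by
    rw [EuclideanSpace.norm_sq_eq]
    calc ∑ i, ‖x i‖ ^ 2 = ∑ i, x i ^ 2 := by simp
      _ ≤ ∑ _i : Fin n, (1 / n : ℝ) := Finset.sum_le_sum (fun i _ => h1 i)
      _ = 1 := by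
        rw [Finset.sum_const, Finset.card_univ, Fintype.card_fin, nsmul_eq_mul]
        field_simp
  nlinarith [norm_nonneg x]

lemma card_le (T : Finset ℕ) (a c : ℝ) (hc : 0 ≤ c) (h : ∀ m ∈ T, |a - m| ≤ c) :
    (T.card : ℝ) ≤ 2 * c + 1 := by
  rcases T.eq_empty_or_nonempty with rfl | hne
  · simp; linarith
  · set m0 := T.min' hne with hm0
    have hm0T : m0 ∈ T := T.min'_mem hne
    have hsub : T ⊆ Finset.Icc m0 (m0 + ⌊2 * c⌋₊) := by
      intro m hm
      rw [Finset.mem_Icc]
      have hle : m0 ≤ m := T.min'_le m hm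
      refine ⟨hle, ?_⟩
      have h1 := abs_le.1 (h m hm)
      have h2 := abs_le.1 (h m0 hm0T)
      have h3 : ((m - m0 : ℕ) : ℝ) ≤ 2 * c := by
        rw [Nat.cast_sub hle]
        linarith [h1.1, h2.2]
      have h4 := Nat.le_floor h3
      omega
    have h1 := Finset.card_le_card hsub
    rw [Nat.card_Icc] at h1
    have h2 : T.card ≤ ⌊2 * c⌋₊ + 1 := by omega
    have h3 : (T.card : ℝ) ≤ (⌊2 * c⌋₊ : ℝ) + 1 := by exact_mod_cast h2
    have h4 := Nat.floor_le (by positivity : 0 ≤ 2 * c)
    linarith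

/-- The lattice points. -/
noncomputable def emb (n : ℕ) (r : ℝ) (L : ℕ) (k : Fin n → ℕ) : V n :=
  WithLp.toLp 2 (fun i => r * (1 / √n) * ((k i : ℝ) - L))

lemma emb_apply (n : ℕ) (r : ℝ) (L : ℕ) (k : Fin n → ℕ) (i : Fin n) :
    emb n r L k i = r * (1 / √n) * ((k i : ℝ) - L) := rfl

lemma emb_inj (n : ℕ) (hn : 0 < n) (r : ℝ) (hr : 0 < r) (L : ℕ) :
    Function.Injective (emb n r L) := by
  intro k k' h
  funext i
  have h1 : emb n r L k i = emb n r L k' i := by rw [h]
  rw [emb_apply, emb_apply] at h1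
  have hn' : (0 : ℝ) < √n := Real.sqrt_pos.2 (by exact_mod_cast hn)
  have h2 : r * (1 / √n) ≠ 0 := by positivity
  have h3 := mul_left_cancel₀ h2 h1
  have h4 : (k i : ℝ) = k' i := by linarith
  exact_mod_cast h4

lemma tele (t : ℝ) (L : ℕ) (h1 : -L ≤ t) (h2 : t ≤ L) :
    ∑ m ∈ Finset.range (2 * L + 1), b (t - ((m : ℝ) - L)) = 1 := by
  have h := Finset.sum_range_sub' (fun m : ℕ => Real.smoothTransition (t + L + 1 - m)) (2 * L + 1)
  have e : ∀ m : ℕ, b (t - ((m : ℝ) - L)) = Real.smoothTransition (t + L + 1 - m) -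
      Real.smoothTransition (t + L + 1 - (m + 1 : ℕ)) := by
    intro m
    unfold b
    congr 1
    · congr 1; ring
    · congr 1; push_cast; ring
  simp only [e]
  rw [h]
  rw [Real.smoothTransition.one_of_one_le (by push_cast; linarith),
    Real.smoothTransition.zero_of_nonpos (by push_cast; linarith), sub_zero]

theorem pu : PUStm := by
  classical
  intro n hn
  have hn0 : (0 : ℝ) < n := by exact_mod_cast hn
  have hs : (0 : ℝ) < √n := Real.sqrt_pos.2 hn0
  refine ⟨ψ n, ψ_contDiff n, ψ_tsupport n hn, (2 * (13 * √n) + 1) ^ n, by positivity, ?_⟩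
  intro r R hr hR
  obtain ⟨L, hL⟩ := exists_nat_ge (R * √n / r)
  rw [div_le_iff₀ hr] at hL
  refine ⟨(Fintype.piFinset (fun _ : Fin n => Finset.range (2 * L + 1))).image (emb n r L), ?_, ?_⟩
  · intro x hx
    rw [mem_closedBall_zero_iff] at hx
    rw [Finset.sum_image (fun a _ b _ h => emb_inj n hn r hr L h)]
    have e : ∀ k : Fin n → ℕ, ψ n (r⁻¹ • (x - emb n r L k)) =
        ∏ i, b (x i * √n / r - ((k i : ℝ) - L)) := by
      intro k
      unfold ψ
      apply Finset.prod_congr rfl
      intro i _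
      congr 1
      have : (r⁻¹ • (x - emb n r L k)) i = r⁻¹ * (x i - r * (1 / √n) * ((k i : ℝ) - L)) := rfl
      rw [this]
      field_simp
    simp only [e]
    rw [← Finset.prod_univ_sum (fun _ : Fin n => Finset.range (2 * L + 1))
      (fun i m => b (x i * √n / r - ((m : ℝ) - L)))]
    apply Finset.prod_eq_one
    intro i _
    have hxi : |x i| ≤ R := by
      have := EuclideanSpace.norm_eq x
      have h2 : ‖x i‖ ≤ ‖x‖ := PiLp.norm_apply_le x i
      rw [Real.norm_eq_abs] at h2
      exact h2.trans hx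
    have h3 : |x i * √n / r| ≤ L := by
      rw [abs_div, abs_mul, abs_of_pos hr, abs_of_pos hs, div_le_iff₀ hr]
      exact (mul_le_mul_of_nonneg_right hxi hs.le).trans hL
    rw [abs_le] at h3
    exact tele _ L h3.1 h3.2
  · intro x
    set a : Fin n → ℝ := fun i => x i * √n / r + L with ha
    set T : Fin n → Finset ℕ := fun i => (Finset.range (2 * L + 1)).filter
      (fun m => |a i - m| ≤ 13 * √n) with hT
    have hsub : ((Fintype.piFinset (fun _ : Fin n => Finset.range (2 * L + 1))).image
        (emb n r L)).filter (fun j => ‖x - j‖ ≤ 13 * r) ⊆ (Fintype.piFinset T).image (emb n r L) := by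
      intro j hj
      rw [Finset.mem_filter, Finset.mem_image] at hj
      obtain ⟨⟨k, hk, rfl⟩, hj2⟩ := hj
      rw [Finset.mem_image]
      refine ⟨k, ?_, rfl⟩
      rw [Fintype.mem_piFinset] at hk ⊢
      intro i
      rw [hT]
      simp only
      rw [Finset.mem_filter]
      refine ⟨hk i, ?_⟩
      have h1 : ‖(x - emb n r L k) i‖ ≤ 13 * r := (PiLp.norm_apply_le _ i).trans hj2
      have h2 : (x - emb n r L k) i = x i - r * (1 / √n) * ((k i : ℝ) - L) := rfl
      rw [h2, Real.norm_eq_abs] at h1
      have h3 : a i - (k i : ℝ) = (x i - r * (1 / √n) * ((k i : ℝ) - L)) * (√n / r) := by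
        rw [ha]
        simp only
        field_simp
        ring
      rw [h3, abs_mul, abs_of_pos (by positivity : 0 < √n / r)]
      calc |x i - r * (1 / √n) * ((k i : ℝ) - L)| * (√n / r) ≤ 13 * r * (√n / r) := by
            apply mul_le_mul_of_nonneg_right h1; positivity
        _ = 13 * √n := by field_simp
    have h1 : ((((Fintype.piFinset (fun _ : Fin n => Finset.range (2 * L + 1))).image
        (emb n r L)).filter (fun j => ‖x - j‖ ≤ 13 * r)).card : ℝ) ≤
        ((Fintype.piFinset T).card : ℝ) := by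
      exact_mod_cast (Finset.card_le_card hsub).trans Finset.card_image_le
    refine h1.trans ?_
    rw [Fintype.card_piFinset, Nat.cast_prod]
    calc ∏ i, ((T i).card : ℝ) ≤ ∏ _i : Fin n, (2 * (13 * √n) + 1) := by
          apply Finset.prod_le_prod
          · intro i _; positivity
          · intro i _
            apply card_le (T i) (a i) (13 * √n) (by positivity)
            intro m hm
            exact (Finset.mem_filter.1 hm).2
      _ = (2 * (13 * √n) + 1) ^ n := by
          rw [Finset.prod_const, Finset.card_univ, Fintype.card_fin]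

end Pool.Agent.R402.HA.PU
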