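import Mathlib
import Pool.Agent.R402.HA.Stm

/-!
# Smooth potentials of compactly supported finite measures (HA-POT)
-/

open MeasureTheory Set Filter Topology
open scoped ENNReal NNReal ContDiff Laplacian

namespace Pool.Agent.R402.HA

section pot

variable {n : ℕ} {K : Set (V n)} {μ : Measure (V n)}

lemma pot_integrable {E : Type} [NormedAddCommGroup E] [NormedSpace ℝ E]
    (hK : IsCompact K) [IsFiniteMeasure μ] (hμ : μ Kᶜ = 0) {G : V n → E} (hG : Continuous G)
    (y : V n) : Integrable (fun x => G (y - x)) μ := by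
  have hc : Continuous (fun x => G (y - x)) := hG.comp (continuous_const.sub continuous_id)
  have hr : μ.restrict K = μ :=
    Measure.restrict_eq_self_of_ae_mem (by rw [ae_iff]; exact hμ)
  have h1 : IntegrableOn (fun x => G (y - x)) K μ := hc.continuousOn.integrableOn_compact hK
  rw [IntegrableOn, hr] at h1
  exact h1

lemma pot_hasFDerivAt {E : Type} [NormedAddCommGroup E] [NormedSpace ℝ E]
    (hK : IsCompact K) [IsFiniteMeasure μ] (hμ : μ Kᶜ = 0) {G : V n → E}
    (hG : ContDiff ℝ ∞ G) (y : V n) :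
    HasFDerivAt (fun y => ∫ x, G (y - x) ∂μ) (∫ x, fderiv ℝ G (y - x) ∂μ) y := by
  have hG' : Continuous (fderiv ℝ G) := hG.continuous_fderiv (by simp)
  have hcomp : IsCompact ((fun p : V n × V n => p.1 - p.2) '' (Metric.closedBall y 1 ×ˢ K)) :=
    ((isCompact_closedBall y 1).prod hK).image (by fun_prop)
  obtain ⟨C, hC⟩ := hcomp.exists_bound_of_continuousOn hG'.continuousOn
  have hae : ∀ᵐ a ∂μ, a ∈ K := by rw [ae_iff]; exact hμ
  refine hasFDerivAt_integral_of_dominated_of_fderiv_le (𝕜 := ℝ)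
    (F := fun y x => G (y - x)) (F' := fun y x => fderiv ℝ G (y - x))
    (bound := fun _ => C) (s := Metric.closedBall y 1)
    (Metric.closedBall_mem_nhds y one_pos) ?_ ?_ ?_ ?_ ?_ ?_
  · refine Eventually.of_forall fun z => ?_
    exact (hG.continuous.comp (continuous_const.sub continuous_id)).aestronglyMeasurable
  · exact pot_integrable hK hμ hG.continuous y
  · exact (hG'.comp (continuous_const.sub continuous_id)).aestronglyMeasurable
  · filter_upwards [hae] with a ha z hz
    exact hC _ ⟨(z, a), ⟨hz, ha⟩, rfl⟩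
  · exact integrable_const C
  · refine Eventually.of_forall fun a z _ => ?_
    have h1 : HasFDerivAt G (fderiv ℝ G (z - a)) (z - a) :=
      (hG.differentiable (by simp) _).hasFDerivAt
    have h2 : HasFDerivAt (fun z : V n => z - a) (ContinuousLinearMap.id ℝ (V n)) z :=
      (hasFDerivAt_id z).sub_const a
    have h3 := h1.comp z h2
    rw [ContinuousLinearMap.comp_id] at h3
    exact h3

lemma pot_fderiv {E : Type} [NormedAddCommGroup E] [NormedSpace ℝ E]
    (hK : IsCompact K) [IsFiniteMeasure μ] (hμ : μ Kᶜ = 0) {G : V n → E}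
    (hG : ContDiff ℝ ∞ G) :
    fderiv ℝ (fun y => ∫ x, G (y - x) ∂μ) = fun y => ∫ x, fderiv ℝ G (y - x) ∂μ :=
  funext fun y => (pot_hasFDerivAt hK hμ hG y).fderiv

lemma pot_contDiff_nat (hK : IsCompact K) [IsFiniteMeasure μ] (hμ : μ Kᶜ = 0) (k : ℕ) :
    ∀ (E : Type) [NormedAddCommGroup E] [NormedSpace ℝ E] (G : V n → E), ContDiff ℝ ∞ G →
      ContDiff ℝ k (fun y => ∫ x, G (y - x) ∂μ) := by
  induction k with
  | zero =>
    intro E _ _ G hG
    rw [Nat.cast_zero, contDiff_zero, continuous_iff_continuousAt]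
    exact fun y => (pot_hasFDerivAt hK hμ hG y).continuousAt
  | succ k ih =>
    intro E _ _ G hG
    rw [Nat.cast_add, Nat.cast_one, contDiff_succ_iff_hasFDerivAt]
    exact ⟨fun y => ∫ x, fderiv ℝ G (y - x) ∂μ,
      ih _ _ (hG.fderiv_right (by simp)), fun y => pot_hasFDerivAt hK hμ hG y⟩

end pot

/-- HA-POT. -/
theorem pot_stm : PotStm := by
  intro n G hG K hK μ hfin hμ
  have hG1 : ContDiff ℝ ∞ (fderiv ℝ G) := hG.fderiv_right (by simp)
  have hG2 : Continuous (fderiv ℝ (fderiv ℝ G)) := hG1.continuous_fderiv (by simp)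
  refine ⟨contDiff_infty.2 fun k => pot_contDiff_nat hK hμ k ℝ G hG, fun y => ?_⟩
  have hf2 : fderiv ℝ (fderiv ℝ (fun y => ∫ x, G (y - x) ∂μ)) y
      = ∫ x, fderiv ℝ (fderiv ℝ G) (y - x) ∂μ := by
    rw [pot_fderiv hK hμ hG, pot_fderiv hK hμ hG1]
  have hlap : ∀ (H : V n → ℝ) (z : V n), Δ H z
      = ∑ i, fderiv ℝ (fderiv ℝ H) z (stdOrthonormalBasis ℝ (V n) i)
          (stdOrthonormalBasis ℝ (V n) i) := by
    intro H z
    rw [InnerProductSpace.laplacian_eq_iteratedFDeriv_stdOrthonormalBasis]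
    refine Finset.sum_congr rfl fun i _ => ?_
    rw [iteratedFDeriv_two_apply]
    rfl
  have hint := pot_integrable (E := V n →L[ℝ] V n →L[ℝ] ℝ) hK hμ hG2 y
  rw [hlap, hf2]
  have h3 : ∀ v w : V n, (∫ x, fderiv ℝ (fderiv ℝ G) (y - x) ∂μ) v w
      = ∫ x, fderiv ℝ (fderiv ℝ G) (y - x) v w ∂μ := by
    intro v w
    rw [ContinuousLinearMap.integral_apply hint v,
      ContinuousLinearMap.integral_apply (hint.apply_continuousLinearMap v) w]
  have h4 : ∀ v w : V n, Integrable (fun x => fderiv ℝ (fderiv ℝ G) (y - x) v w) μ :=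
    fun v w => (hint.apply_continuousLinearMap v).apply_continuousLinearMap w
  rw [Finset.sum_congr rfl fun i _ => h3 _ _, ← integral_finsetSum _ fun i _ => h4 _ _]
  refine integral_congr_ae (Eventually.of_forall fun x => ?_)
  exact (hlap G (y - x)).symm

end Pool.Agent.R402.HA
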